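import Pool.Agent.R566.Delayed.Space

set_option autoImplicit false
set_option linter.unusedSectionVars false

open scoped BigOperators

namespace Pool.Agent.R566.Delayed

/-! ### Offline -/

/-- All servers are on the cycle and all points except possibly `x` are covered. -/
def Hole (x : Fin 4) (s : St U 3) : Prop :=
  (∀ i, s.pos i ∈ S4) ∧ ∀ y, y ≠ x → ∃ i, s.pos i = pt y

/-- The frozen server is at `r`. -/
def Fr (r : Fin 4) (s : St U 3) : Prop := ∃ f, s.fr = some f ∧ s.pos f = pt r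

lemma hole_step {x y r q : Fin 4} {s : St U 3} (hH : Hole x s) (hF : Fr r s) (hyr : y ≠ r)
    (hyq : y ≠ q) : ∃ s', Step s (pt q) s' (cyc x y : ℝ) ∧ Hole y s' ∧ Fr q s' := by
  by_cases hxy : y = x
  · subst hxy
    obtain ⟨g, hg⟩ := hH.2 q (Ne.symm hyq)
    rw [cyc_self, Nat.cast_zero]
    exact ⟨_, step_stay s g hg, hH, g, rfl, hg⟩
  · obtain ⟨i, hi⟩ := hH.2 y hxy
    obtain ⟨f, hf1, hf2⟩ := hF
    have hif : i ≠ f := by
      intro h
      rw [h, hf2] at hi
      exact hyr (pt_inj hi).symm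
    have hcov : ∀ w, w ≠ y → ∃ j, Function.update s.pos i (pt x) j = pt w := by
      intro w hw
      by_cases hwx : w = x
      · exact ⟨i, by rw [Function.update_self, hwx]⟩
      · obtain ⟨j, hj⟩ := hH.2 w hwx
        have hji : j ≠ i := by
          intro h
          rw [h, hi] at hj
          exact hw (pt_inj hj).symm
        exact ⟨j, by rw [Function.update_of_ne hji]; exact hj⟩
    obtain ⟨g, hg⟩ := hcov q (Ne.symm hyq)
    refine ⟨⟨Function.update s.pos i (pt x), some g⟩, ⟨?_, ⟨g, rfl, hg⟩, ?_⟩, ⟨?_, hcov⟩,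
      ⟨g, rfl, hg⟩⟩
    · intro f' hf'
      rw [hf1] at hf'
      have : f = f' := Option.some.inj hf'
      subst this
      show Function.update s.pos i (pt x) f = s.pos f
      rw [Function.update_of_ne (Ne.symm hif)]
    · rw [← Finset.add_sum_erase _ _ (Finset.mem_univ i)]
      show _ = dist (s.pos i) (Function.update s.pos i (pt x) i) + _
      rw [Function.update_self, Finset.sum_eq_zero, add_zero, hi, dist_comm, dist_pt]
      intro j hj
      rw [Finset.mem_erase] at hj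
      show dist (s.pos j) (Function.update s.pos i (pt x) j) = 0
      rw [Function.update_of_ne hj.1, dist_self]
    · intro j
      show Function.update s.pos i (pt x) j ∈ S4
      by_cases hj : j = i
      · subst hj; rw [Function.update_self]; exact pt_mem x
      · rw [Function.update_of_ne hj]; exact hH.1 j

/-- The offline part of the invariant. -/
def OW (h : List U) (m : ℕ) (r r' : Fin 4) (δ : Fin 5) : Prop :=
  ∀ c' : Fin 3 → U, (∀ i, c' i ∈ S4) →
    (∃ (s : St U 3) (x : ℝ), Off ⟨c', none⟩ h s x ∧ x ≤ (m + (δ.val - 2) : ℕ) ∧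
      Hole (hole0 r r') s ∧ Fr r' s) ∧
    (∃ (s : St U 3) (x : ℝ), Off ⟨c', none⟩ h s x ∧ x ≤ (m + (2 - δ.val) : ℕ) ∧
      Hole (hole1 r r') s ∧ Fr r' s)

lemma OW.step {h : List U} {m : ℕ} {r r' : Fin 4} {δ : Fin 5} (H : OW h m r r' δ)
    (hg : good r r' δ) {q : Fin 4} (hq : q ≠ r') :
    OW (pt q :: h) (m + dl r r' δ q) r' q (dn r r' δ q) := by
  obtain ⟨w1, w2, w3⟩ := w_ok r r' δ q hg hq
  obtain ⟨h1, h2, h3, h4⟩ := hole_ok r' q (Ne.symm hq)
  intro c' hc'
  obtain ⟨⟨s0, x0, a1, a2, a3, a4⟩, ⟨s1, x1, b1, b2, b3, b4⟩⟩ := H c' hc'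
  have key : ∀ y, y ≠ r' → y ≠ q → ∃ (s : St U 3) (x : ℝ), Off ⟨c', none⟩ (pt q :: h) s x ∧
      x ≤ (m + wn r r' δ y : ℕ) ∧ Hole y s ∧ Fr q s := by
    intro y hy1 hy2
    obtain ⟨t0, c1, c2, c3⟩ := hole_step a3 a4 hy1 hy2
    obtain ⟨t1, d1, d2, d3⟩ := hole_step b3 b4 hy1 hy2
    rcases le_total ((δ.val - 2) + cyc (hole0 r r') y) ((2 - δ.val) + cyc (hole1 r r') y) with hle | hle
    · refine ⟨t0, _, Off.cons a1 c1, ?_, c2, c3⟩
      have : wn r r' δ y = (δ.val - 2) + cyc (hole0 r r') y := min_eq_left hle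
      rw [this]
      push_cast at a2 ⊢
      linarith
    · refine ⟨t1, _, Off.cons b1 d1, ?_, d2, d3⟩
      have : wn r r' δ y = (2 - δ.val) + cyc (hole1 r r') y := min_eq_right hle
      rw [this]
      push_cast at b2 ⊢
      linarith
  refine ⟨?_, ?_⟩
  · obtain ⟨s, x, e1, e2, e3, e4⟩ := key _ h1 h2
    refine ⟨s, x, e1, ?_, e3, e4⟩
    rw [← w2] at e2
    rw [add_assoc]; exact e2
  · obtain ⟨s, x, e1, e2, e3, e4⟩ := key _ h3 h4
    refine ⟨s, x, e1, ?_, e3, e4⟩
    rw [← w3] at e2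
    rw [add_assoc]; exact e2

/-- The offline cost is at most the minimum of the work function. -/
lemma OW.le {h : List U} {m : ℕ} {r r' : Fin 4} {δ : Fin 5} (H : OW h m r r' δ)
    (c' : Fin 3 → U) (hc' : ∀ i, c' i ∈ S4) :
    ∃ (s : St U 3) (x : ℝ), Off ⟨c', none⟩ h s x ∧ (∀ i, s.pos i ∈ S4) ∧ x ≤ m := by
  obtain ⟨⟨s0, x0, a1, a2, a3, a4⟩, ⟨s1, x1, b1, b2, b3, b4⟩⟩ := H c' hc'
  rcases le_total δ.val 2 with h2 | h2
  · refine ⟨s0, x0, a1, a3.1, ?_⟩
    have : m + (δ.val - 2) = m := by omega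
    rw [this] at a2; exact a2
  · refine ⟨s1, x1, b1, b3.1, ?_⟩
    have : m + (2 - δ.val) = m := by omega
    rw [this] at b2; exact b2

/-! ### Online -/

/-- The class of a point. -/
def cls : U → Fin 5
  | Sum.inl a => a.castSucc
  | Sum.inr _ => 4

lemma pd_le (p : U) (q : Fin 4) : (pd (cls p) q : ℝ) ≤ dist p (pt q) := by
  rcases p with a | n
  · show (pd a.castSucc q : ℝ) ≤ (cyc a q : ℝ)
    have : pd a.castSucc q = cyc a q := by
      unfold pd
      rw [dif_pos (by simp)]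
      rfl
    rw [this]
  · show (pd 4 q : ℝ) ≤ ((n + 2 : ℕ) : ℝ)
    have : pd 4 q = 2 := by unfold pd; rw [dif_neg (by decide)]
    rw [this]
    push_cast
    linarith [Nat.cast_nonneg (α := ℝ) n]

lemma cls_pt (r : Fin 4) : cls (pt r) = r.castSucc := rfl

/-- The online part of the invariant: servers at the last two requests and the third
server at `p`. -/
def OS (c0 : Fin 3 → U) (σ : List U → Fin 3) (h : List U) (r r' : Fin 4) (p : U) : Prop :=
  (∃ h0, h = pt r' :: h0) ∧ lpos c0 σ h (σ h) = pt r' ∧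
  ∃ j l, j ≠ σ h ∧ l ≠ σ h ∧ j ≠ l ∧ lpos c0 σ h j = pt r ∧ lpos c0 σ h l = p

lemma three {a b c d : Fin 3} (h1 : b ≠ a) (h2 : c ≠ a) (h3 : b ≠ c) : d ≠ a → d = b ∨ d = c := by
  revert a b c d
  decide

lemma OS.step {c0 : Fin 3 → U} {σ : List U → Fin 3} (hσ : Valid σ) {h : List U} {r r' : Fin 4}
    {p : U} (H : OS c0 σ h r r' p) {q : Fin 4} (hq : q ≠ r') :
    (OS c0 σ (pt q :: h) r' q p ∧ lcost c0 σ (pt q :: h) = lcost c0 σ h + cyc r q) ∨
    (OS c0 σ (pt q :: h) r' q (pt r) ∧ lcost c0 σ (pt q :: h) = lcost c0 σ h + dist p (pt q)) := by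
  obtain ⟨⟨h0, rfl⟩, h1, j, l, hj, hl, hjl, hj2, hl2⟩ := H
  set h := pt r' :: h0 with hh
  have hne : σ (pt q :: h) ≠ σ h := by
    intro h2
    exact hq (pt_inj (hσ (pt q) (pt r') h0 h2))
  rcases three hj hl hjl hne with h2 | h2
  · left
    refine ⟨⟨⟨h, rfl⟩, ?_, σ h, l, ?_, ?_, hl.symm, ?_, ?_⟩, ?_⟩
    · show Function.update (lpos c0 σ h) (σ (pt q :: h)) (pt q) (σ (pt q :: h)) = pt q
      rw [Function.update_self]
    · exact hne.symm
    · rw [h2]; exact hjl.symm
    · show Function.update (lpos c0 σ h) (σ (pt q :: h)) (pt q) (σ h) = _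
      rw [Function.update_of_ne hne.symm]; exact h1
    · show Function.update (lpos c0 σ h) (σ (pt q :: h)) (pt q) l = _
      rw [Function.update_of_ne (by rw [h2]; exact hjl.symm)]; exact hl2
    · show lcost c0 σ h + dist (lpos c0 σ h (σ (pt q :: h))) (pt q) = _
      rw [h2, hj2, dist_pt]
  · right
    refine ⟨⟨⟨h, rfl⟩, ?_, σ h, j, ?_, ?_, hj.symm, ?_, ?_⟩, ?_⟩
    · show Function.update (lpos c0 σ h) (σ (pt q :: h)) (pt q) (σ (pt q :: h)) = pt q
      rw [Function.update_self]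
    · exact hne.symm
    · rw [h2]; exact hjl
    · show Function.update (lpos c0 σ h) (σ (pt q :: h)) (pt q) (σ h) = _
      rw [Function.update_of_ne hne.symm]; exact h1
    · show Function.update (lpos c0 σ h) (σ (pt q :: h)) (pt q) j = _
      rw [Function.update_of_ne (by rw [h2]; exact hjl)]; exact hj2
    · show lcost c0 σ h + dist (lpos c0 σ h (σ (pt q :: h))) (pt q) = _
      rw [h2, hl2]

/-- The whole invariant. -/
def Inv (c0 : Fin 3 → U) (σ : List U → Fin 3) (h : List U) (n : ℕ) : Prop :=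
  ∃ (m : ℕ) (r r' : Fin 4) (p : U) (δ : Fin 5) (t : Fin 2), good r r' δ ∧ OW h m r r' δ ∧
    OS c0 σ h r r' p ∧ (3 * m + EE r r' (cls p) δ t.val : ℕ) ≤ lcost c0 σ h + 22 ∧
    (n : ℝ) ≤ 2 * lcost c0 σ h + t.val

/-- The property of all suffixes. -/
def All (c0 : Fin 3 → U) (σ : List U → Fin 3) (h : List U) : Prop :=
  ∀ h', h' <:+ h → ∀ c' : Fin 3 → U, (∀ i, c' i ∈ S4) →
    ∃ (s : St U 3) (x : ℝ), Off ⟨c', none⟩ h' s x ∧ (∀ i, s.pos i ∈ S4) ∧
      3 * x ≤ lcost c0 σ h' + 22

lemma inv_step {c0 : Fin 3 → U} {σ : List U → Fin 3} (hσ : Valid σ) {h : List U} {n : ℕ}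
    (hI : Inv c0 σ h n) (hA : All c0 σ h) :
    ∃ q : Fin 4, Inv c0 σ (pt q :: h) (n + 1) ∧ All c0 σ (pt q :: h) := by
  obtain ⟨m, r, r', p, δ, t, hg, hW, hS, hE, hn⟩ := hI
  obtain ⟨q, hq, hc1, hc2⟩ := table_ok r r' (cls p) δ t hg
  have hW' := hW.step hg hq
  have hg' := (w_ok r r' δ q hg hq).1
  have ht2 := t.isLt
  have main : Inv c0 σ (pt q :: h) (n + 1) := by
    rcases hS.step hσ hq with ⟨hS', hcost⟩ | ⟨hS', hcost⟩
    · by_cases h0 : cyc r q = 0
      · rw [if_pos h0, h0] at hc1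
        have ht : t.val = 0 := hc1.1 rfl
        refine ⟨m + dl r r' δ q, r', q, p, dn r r' δ q, 1, hg', hW', hS', ?_, ?_⟩
        · rw [hcost, h0]
          have h3 : EE r' q (cls p) (dn r r' δ q) (1 : Fin 2).val + 3 * dl r r' δ q ≤
              EE r r' (cls p) δ t.val := by
            have := hc1.2
            rw [ht] at this ⊢
            exact this
          have h4 : 3 * (m + dl r r' δ q) + EE r' q (cls p) (dn r r' δ q) (1 : Fin 2).val ≤
              3 * m + EE r r' (cls p) δ t.val := by omega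
          have h5 : ((3 * (m + dl r r' δ q) + EE r' q (cls p) (dn r r' δ q) (1 : Fin 2).val : ℕ) : ℝ) ≤
              ((3 * m + EE r r' (cls p) δ t.val : ℕ) : ℝ) := by exact_mod_cast h4
          push_cast at h5 hE ⊢
          linarith
        · rw [hcost, h0]
          rw [ht] at hn
          have e1 : (((1 : Fin 2).val : ℕ) : ℝ) = 1 := by norm_num
          rw [e1]
          push_cast at hn ⊢
          linarith
      · rw [if_neg h0] at hc1
        refine ⟨m + dl r r' δ q, r', q, p, dn r r' δ q, 0, hg', hW', hS', ?_, ?_⟩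
        · rw [hcost]
          have h4 : 3 * (m + dl r r' δ q) + EE r' q (cls p) (dn r r' δ q) (0 : Fin 2).val ≤
              3 * m + EE r r' (cls p) δ t.val + cyc r q := by
            have := hc1.2
            have e : (0 : Fin 2).val = 0 := rfl
            rw [e]
            omega
          have h5 : ((3 * (m + dl r r' δ q) + EE r' q (cls p) (dn r r' δ q) (0 : Fin 2).val : ℕ) : ℝ) ≤
              ((3 * m + EE r r' (cls p) δ t.val + cyc r q : ℕ) : ℝ) := by exact_mod_cast h4
          push_cast at h5 hE ⊢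
          linarith
        · rw [hcost]
          have h6 : (1 : ℝ) ≤ cyc r q := by
            have : 1 ≤ cyc r q := by omega
            exact_mod_cast this
          have h7 : (t.val : ℝ) ≤ 1 := by
            have : t.val ≤ 1 := by omega
            exact_mod_cast this
          push_cast at hn ⊢
          linarith
    · have hpd := pd_le p q
      by_cases h0 : pd (cls p) q = 0
      · rw [if_pos h0, h0] at hc2
        have ht : t.val = 0 := hc2.1 rfl
        refine ⟨m + dl r r' δ q, r', q, pt r, dn r r' δ q, 1, hg', hW', hS', ?_, ?_⟩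
        · rw [hcost, cls_pt]
          have h3 : EE r' q r.castSucc (dn r r' δ q) (1 : Fin 2).val + 3 * dl r r' δ q ≤
              EE r r' (cls p) δ t.val := by
            have := hc2.2
            rw [ht] at this ⊢
            exact this
          have h4 : 3 * (m + dl r r' δ q) + EE r' q r.castSucc (dn r r' δ q) (1 : Fin 2).val ≤
              3 * m + EE r r' (cls p) δ t.val := by omega
          have h5 : ((3 * (m + dl r r' δ q) + EE r' q r.castSucc (dn r r' δ q) (1 : Fin 2).val : ℕ) : ℝ) ≤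
              ((3 * m + EE r r' (cls p) δ t.val : ℕ) : ℝ) := by exact_mod_cast h4
          have h6 : 0 ≤ dist p (pt q) := dist_nonneg
          push_cast at h5 hE ⊢
          linarith
        · rw [hcost]
          rw [ht] at hn
          have h6 : 0 ≤ dist p (pt q) := dist_nonneg
          have e1 : (((1 : Fin 2).val : ℕ) : ℝ) = 1 := by norm_num
          rw [e1]
          push_cast at hn ⊢
          linarith
      · rw [if_neg h0] at hc2
        refine ⟨m + dl r r' δ q, r', q, pt r, dn r r' δ q, 0, hg', hW', hS', ?_, ?_⟩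
        · rw [hcost, cls_pt]
          have h4 : 3 * (m + dl r r' δ q) + EE r' q r.castSucc (dn r r' δ q) (0 : Fin 2).val ≤
              3 * m + EE r r' (cls p) δ t.val + pd (cls p) q := by
            have := hc2.2
            have e : (0 : Fin 2).val = 0 := rfl
            rw [e]
            omega
          have h5 : ((3 * (m + dl r r' δ q) + EE r' q r.castSucc (dn r r' δ q) (0 : Fin 2).val : ℕ) : ℝ) ≤
              ((3 * m + EE r r' (cls p) δ t.val + pd (cls p) q : ℕ) : ℝ) := by exact_mod_cast h4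
          push_cast at h5 hE ⊢
          linarith
        · rw [hcost]
          have h6 : (1 : ℝ) ≤ pd (cls p) q := by
            have : 1 ≤ pd (cls p) q := by omega
            exact_mod_cast this
          have h7 : (t.val : ℝ) ≤ 1 := by
            have : t.val ≤ 1 := by omega
            exact_mod_cast this
          push_cast at hn ⊢
          linarith
  refine ⟨q, main, ?_⟩
  intro h' hh' c' hc'
  rcases List.suffix_cons_iff.1 hh' with h1 | h1
  · subst h1
    obtain ⟨m', r1, r1', p', δ', t', -, hW2, -, hE', -⟩ := main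
    obtain ⟨s, x, e1, e2, e3⟩ := hW2.le c' hc'
    refine ⟨s, x, e1, e2, ?_⟩
    have : (0 : ℝ) ≤ EE r1 r1' (cls p') δ' t'.val := Nat.cast_nonneg _
    push_cast at hE'
    linarith
  · exact hA h' h1 c' hc'

/-- The start. -/
lemma start (c0 : Fin 3 → U) {σ : List U → Fin 3} (hσ : Valid σ) :
    Inv c0 σ [pt 1, pt 0] 0 ∧ All c0 σ [pt 1, pt 0] := by
  have hcost := lcost_nonneg c0 σ [pt 1, pt 0]
  have hne : σ [pt 1, pt 0] ≠ σ [pt 0] := by
    intro h
    have := pt_inj (hσ (pt 1) (pt 0) [] h)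
    exact absurd this (by decide)
  -- offline
  have hoff1 : ∀ y : Fin 4, (y = 2 ∨ y = 3) → ∀ c' : Fin 3 → U, (∀ i, c' i ∈ S4) →
      ∃ (s : St U 3) (x : ℝ), Off ⟨c', none⟩ [pt 0] s x ∧ x ≤ (6 : ℕ) ∧
        (∀ i, s.pos i ∈ S4) ∧ Hole (5 - y) s ∧ Fr 0 s := by
    intro y hy c' hc'
    refine ⟨⟨![pt 0, pt 1, pt y], some 0⟩, 0 + ∑ i, dist (c' i) (![pt 0, pt 1, pt y] i),
      Off.cons Off.nil ⟨fun f hf => by simp at hf, ⟨0, rfl, rfl⟩, rfl⟩, ?_, ?_, ⟨?_, ?_⟩, ?_⟩
    · have h1 : ∀ i, dist (c' i) ((![pt 0, pt 1, pt y] : Fin 3 → U) i) ≤ 2 := by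
        intro i
        obtain ⟨a, ha⟩ := mem_S4.1 (hc' i)
        obtain ⟨b, hb⟩ : ∃ b, (![pt 0, pt 1, pt y] : Fin 3 → U) i = pt b := by
          fin_cases i
          · exact ⟨0, rfl⟩
          · exact ⟨1, rfl⟩
          · exact ⟨y, rfl⟩
        rw [ha, hb, dist_pt]
        exact_mod_cast cyc_le a b
      have h2 := Finset.sum_le_card_nsmul Finset.univ _ (2 : ℝ) (fun i _ => h1 i)
      rw [Finset.card_univ, Fintype.card_fin, nsmul_eq_mul] at h2
      push_cast at h2 ⊢
      linarith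
    · intro i
      fin_cases i
      · exact pt_mem 0
      · exact pt_mem 1
      · exact pt_mem y
    · intro i
      fin_cases i
      · exact pt_mem 0
      · exact pt_mem 1
      · exact pt_mem y
    · intro w hw
      have h3 : w = 0 ∨ w = 1 ∨ w = y := by
        revert w y
        decide
      rcases h3 with h3 | h3 | h3
      · exact ⟨0, by rw [h3]; rfl⟩
      · exact ⟨1, by rw [h3]; rfl⟩
      · exact ⟨2, by rw [h3]; rfl⟩
    · exact ⟨0, rfl, rfl⟩
  have hW : OW [pt 1, pt 0] 6 0 1 2 := by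
    intro c' hc'
    refine ⟨?_, ?_⟩
    · obtain ⟨s, x, a1, a2, -, a3, a4⟩ := hoff1 3 (Or.inr rfl) c' hc'
      obtain ⟨s', b1, b2, b3⟩ := hole_step (y := 2) (q := 1) a3 a4 (by decide) (by decide)
      exact ⟨s', _, Off.cons a1 b1, by
        have : cyc (5 - 3) 2 = 0 := by decide
        rw [this, Nat.cast_zero, add_zero]; exact a2, b2, b3⟩
    · obtain ⟨s, x, a1, a2, -, a3, a4⟩ := hoff1 2 (Or.inl rfl) c' hc'
      obtain ⟨s', b1, b2, b3⟩ := hole_step (y := 3) (q := 1) a3 a4 (by decide) (by decide)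
      exact ⟨s', _, Off.cons a1 b1, by
        have : cyc (5 - 2) 3 = 0 := by decide
        rw [this, Nat.cast_zero, add_zero]; exact a2, b2, b3⟩
  -- online
  obtain ⟨l, hl1, hl2⟩ : ∃ l : Fin 3, l ≠ σ [pt 1, pt 0] ∧ l ≠ σ [pt 0] := by
    generalize σ [pt 1, pt 0] = a
    generalize σ [pt 0] = b
    revert a b
    decide
  have hS : OS c0 σ [pt 1, pt 0] 0 1 (lpos c0 σ [pt 1, pt 0] l) := by
    refine ⟨⟨_, rfl⟩, ?_, σ [pt 0], l, hne.symm, hl1, hl2.symm, ?_, rfl⟩
    · show Function.update _ _ _ _ = _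
      rw [Function.update_self]
    · show Function.update (Function.update c0 (σ [pt 0]) (pt 0)) (σ [pt 1, pt 0]) (pt 1)
        (σ [pt 0]) = _
      rw [Function.update_of_ne hne.symm, Function.update_self]
  refine ⟨⟨6, 0, 1, _, 2, 0, by decide, hW, hS, ?_, ?_⟩, ?_⟩
  · have h1 := EE_le 0 1 (cls (lpos c0 σ [pt 1, pt 0] l)) 2 0
    have h2 : ((3 * 6 + EE 0 1 (cls (lpos c0 σ [pt 1, pt 0] l)) 2 (0 : Fin 2).val : ℕ) : ℝ) ≤
        ((22 : ℕ) : ℝ) := by
      have : 3 * 6 + EE 0 1 (cls (lpos c0 σ [pt 1, pt 0] l)) 2 (0 : Fin 2).val ≤ 22 := by omega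
      exact_mod_cast this
    push_cast at h2 ⊢
    linarith
  · push_cast
    simp only [Fin.val_zero]
    push_cast
    linarith
  · intro h' hh' c' hc'
    rcases List.suffix_cons_iff.1 hh' with h1 | h1
    · subst h1
      obtain ⟨s, x, e1, e2, e3⟩ := hW.le c' hc'
      refine ⟨s, x, e1, e2, ?_⟩
      push_cast at e3
      linarith
    rcases List.suffix_cons_iff.1 h1 with h2 | h2
    · subst h2
      obtain ⟨s, x, e1, e2, e3, -⟩ := hoff1 2 (Or.inl rfl) c' hc'
      refine ⟨s, x, e1, e3, ?_⟩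
      have := lcost_nonneg c0 σ [pt 0]
      push_cast at e2
      linarith
    · have h3 : h' = [] := List.suffix_nil.1 h2
      subst h3
      refine ⟨⟨c', none⟩, 0, Off.nil, hc', ?_⟩
      have := lcost_nonneg c0 σ []
      linarith

/-- The base case. -/
theorem base : HK S4 3 3 22 := by
  intro σ hσ c0 N
  have key : ∀ n : ℕ, ∃ h, (∀ r ∈ h, r ∈ S4) ∧ Inv c0 σ h n ∧ All c0 σ h := by
    intro n
    induction n with
    | zero =>
      obtain ⟨h1, h2⟩ := start c0 hσ
      refine ⟨[pt 1, pt 0], ?_, h1, h2⟩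
      intro r hr
      simp only [List.mem_cons, List.not_mem_nil, or_false] at hr
      rcases hr with hr | hr <;> rw [hr] <;> exact pt_mem _
    | succ n ih =>
      obtain ⟨h, h1, h2, h3⟩ := ih
      obtain ⟨q, h4, h5⟩ := inv_step hσ h2 h3
      refine ⟨pt q :: h, ?_, h4, h5⟩
      intro r hr
      rcases List.mem_cons.1 hr with h6 | h6
      · rw [h6]; exact pt_mem q
      · exact h1 r h6
  obtain ⟨n, hn⟩ := exists_nat_ge (2 * N + 1)
  obtain ⟨h, h1, h2, h3⟩ := key n
  refine ⟨h, h1, ?_, h3⟩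
  obtain ⟨m, r, r', p, δ, t, -, -, -, -, h4⟩ := h2
  have h7 : (t.val : ℝ) ≤ 1 := by
    have : t.val ≤ 1 := by have := t.isLt; omega
    exact_mod_cast this
  linarith

end Pool.Agent.R566.Delayed
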