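import Pool.Agent.R566.Delayed.Base

set_option autoImplicit false
set_option linter.unusedSectionVars false

open scoped BigOperators

namespace Pool.Agent.R566.Delayed

/-! ### The tower -/

lemma dist_far {n : ℕ} {s : U} (h : (∃ a, s = pt a) ∨ ∃ m, m < n ∧ s = far m) :
    dist s (far n) = (n : ℝ) + 2 := by
  rcases h with ⟨a, rfl⟩ | ⟨m, hm, rfl⟩
  · show ((n + 2 : ℕ) : ℝ) = _
    push_cast; rfl
  · show ((if m = n then 0 else max m n + 2 : ℕ) : ℝ) = _
    rw [if_neg (by omega), max_eq_right hm.le]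
    push_cast; rfl

lemma dist_far_min (n : ℕ) (y : U) (hy : y ≠ far n) : (n : ℝ) + 2 ≤ dist y (far n) := by
  rcases y with a | m
  · show _ ≤ ((n + 2 : ℕ) : ℝ)
    push_cast; rfl
  · have hmn : m ≠ n := fun h => hy (by rw [h]; rfl)
    show _ ≤ ((if m = n then 0 else max m n + 2 : ℕ) : ℝ)
    rw [if_neg hmn]
    have : n + 2 ≤ max m n + 2 := by omega
    exact_mod_cast this

lemma dist_le_of_mem {n0 : ℕ} {s s' : U} (h : (∃ a, s = pt a) ∨ ∃ m, m < n0 ∧ s = far m)
    (h' : (∃ a, s' = pt a) ∨ ∃ m, m < n0 ∧ s' = far m) : dist s s' ≤ (n0 : ℝ) + 2 := by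
  rcases h with ⟨a, rfl⟩ | ⟨m, hm, rfl⟩ <;> rcases h' with ⟨b, rfl⟩ | ⟨l, hl, rfl⟩
  · show ((cyc a b : ℕ) : ℝ) ≤ _
    have := cyc_le a b
    have h2 : ((cyc a b : ℕ) : ℝ) ≤ 2 := by exact_mod_cast this
    linarith [Nat.cast_nonneg (α := ℝ) n0]
  · show ((l + 2 : ℕ) : ℝ) ≤ _
    have : l + 2 ≤ n0 + 2 := by omega
    exact_mod_cast this
  · show ((m + 2 : ℕ) : ℝ) ≤ _
    have : m + 2 ≤ n0 + 2 := by omega
    exact_mod_cast this
  · show ((if m = l then 0 else max m l + 2 : ℕ) : ℝ) ≤ _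
    have : (if m = l then 0 else max m l + 2) ≤ n0 + 2 := by split_ifs <;> omega
    exact_mod_cast this

/-- The points of `S` are on the cycle or are among the first `n0` far points. -/
def Low (S : Finset U) (n0 : ℕ) : Prop := ∀ s ∈ S, (∃ a, s = pt a) ∨ ∃ m, m < n0 ∧ s = far m

lemma far_notMem {S : Finset U} {n0 n : ℕ} (h : Low S n0) (hn : n0 ≤ n) : far n ∉ S := by
  intro h2
  rcases h _ h2 with ⟨a, ha⟩ | ⟨m, hm, ha⟩
  · exact absurd ha (by simp [far, pt])
  · have : n = m := Sum.inr_injective ha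
    omega

lemma Low.mono {S : Finset U} {n0 n : ℕ} (h : Low S n0) (hn : n0 ≤ n) : Low S n := by
  intro s hs
  rcases h s hs with h1 | ⟨m, hm, h1⟩
  · exact Or.inl h1
  · exact Or.inr ⟨m, by omega, h1⟩

lemma tower (j : ℕ) : ∀ ε : ℝ, 0 < ε → ε ≤ 1 → ∃ (S : Finset U) (n0 : ℕ) (K : ℝ),
    S.card = j + 3 + 1 ∧ Low S n0 ∧ 0 ≤ K ∧ HK S (j + 3) (((j + 3 : ℕ) : ℝ) - ε) K := by
  induction j with
  | zero =>
    intro ε hε0 hε1
    refine ⟨S4, 0, 22, ?_, ?_, by norm_num, ?_⟩
    · unfold S4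
      rw [Finset.card_image_of_injective _ pt_inj]
      simp
    · intro s hs
      exact Or.inl (mem_S4.1 hs)
    · intro σ hσ c0 N
      obtain ⟨h, h1, h2, h3⟩ := base σ hσ c0 N
      refine ⟨h, h1, h2, ?_⟩
      intro h' hh' c' hc'
      obtain ⟨s, x, e1, e2, e3⟩ := h3 h' hh' c' hc'
      refine ⟨s, x, e1, e2, ?_⟩
      have hx := e1.nonneg
      have : (((0 + 3 : ℕ) : ℝ) - ε) * x ≤ 3 * x := by
        apply mul_le_mul_of_nonneg_right _ hx
        push_cast
        linarith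
      linarith
  | succ j ih =>
    intro ε hε0 hε1
    obtain ⟨S, n0, K, h1, h2, h3, h4⟩ := ih (ε / 2) (by linarith) (by linarith)
    set c : ℝ := ((j + 3 : ℕ) : ℝ) - ε / 2 with hc
    have hc1 : 1 ≤ c := by
      rw [hc]; push_cast
      linarith [Nat.cast_nonneg (α := ℝ) j]
    obtain ⟨n, hn⟩ := exists_nat_ge ((K + (c + 1) * ((((j + 3 : ℕ) : ℝ) + 2) * ((n0 : ℝ) + 2))) / ε +
      n0)
    have hn0 : (0 : ℝ) ≤ n0 := Nat.cast_nonneg _
    have hpos : 0 ≤ (K + (c + 1) * ((((j + 3 : ℕ) : ℝ) + 2) * ((n0 : ℝ) + 2))) / ε := by positivity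
    have hn1 : n0 ≤ n := by
      have : (n0 : ℝ) ≤ n := by linarith
      exact_mod_cast this
    have hlarge : K + (c + 1) * ((((j + 3 : ℕ) : ℝ) + 2) * ((n0 : ℝ) + 2)) ≤
        2 * (ε / 2) * ((n : ℝ) + 2) := by
      have h5 : (K + (c + 1) * ((((j + 3 : ℕ) : ℝ) + 2) * ((n0 : ℝ) + 2))) / ε ≤ (n : ℝ) + 2 := by
        linarith
      rw [div_le_iff₀ hε0] at h5
      linarith
    obtain ⟨K', h5, h6⟩ := step (S := S) (z := far n) (D := (n0 : ℝ) + 2) (L := (n : ℝ) + 2)
      (c := c) (ε := ε / 2) (K := K) (by omega : 2 ≤ j + 3) h1 (far_notMem h2 hn1)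
      (fun s hs s' hs' => dist_le_of_mem (h2 s hs) (h2 s' hs'))
      (fun s hs => dist_far ((h2.mono hn1) s hs)) (dist_far_min n) (by positivity) (by positivity)
      hc1 (by linarith) (by linarith) h3 hlarge h4
    refine ⟨insert (far n) S, n + 1, K', ?_, ?_, h5, ?_⟩
    · rw [Finset.card_insert_of_notMem (far_notMem h2 hn1), h1]
    · intro s hs
      rw [Finset.mem_insert] at hs
      rcases hs with hs | hs
      · exact Or.inr ⟨n, by omega, hs⟩
      · exact h2.mono (by omega) s hs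
    · have e1 : c + 1 - ε / 2 = ((j + 1 + 3 : ℕ) : ℝ) - ε := by
        rw [hc]; push_cast; ring
      rw [e1] at h6
      have e2 : j + 3 + 1 = j + 1 + 3 := by omega
      rw [← e2]
      rw [← e2] at h6
      exact h6

/-! ### Reduction to lazy algorithms -/

section reduction

variable {M : Type} [MetricSpace M] {k : ℕ} {c₀ : Fin k → M} {f₀ : Fin k}

lemma cost_append (A : Algorithm M k c₀ f₀) (ρ : List M) (r : M) :
    A.cost (ρ ++ [r]) = A.cost ρ + ∑ i, dist (A.conf ρ i) (A.conf (ρ ++ [r]) i) := by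
  unfold Algorithm.cost
  rw [List.length_append, List.length_singleton, Finset.sum_range_succ]
  congr 1
  · apply Finset.sum_congr rfl
    intro t ht
    rw [Finset.mem_range] at ht
    apply Finset.sum_congr rfl
    intro i _
    rw [List.take_append_of_le_length ht.le, List.take_append_of_le_length (by omega)]
  · apply Finset.sum_congr rfl
    intro i _
    rw [List.take_append_of_le_length (le_refl _), List.take_length]
    congr 2
    rw [List.take_of_length_le (by simp)]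

/-- The lazy version of an algorithm. -/
def lz (A : Algorithm M k c₀ f₀) (h : List M) : Fin k := A.serve h.reverse

lemma lz_valid (A : Algorithm M k c₀ f₀) : Valid (lz A) := by
  intro r r' h heq
  unfold lz at heq
  rw [List.reverse_cons (as := r' :: h)] at heq
  have h1 := A.frozen (r' :: h).reverse r
  have h2 := A.served (r' :: h).reverse r
  rw [heq] at h2
  rw [h1] at h2
  have h3 : A.conf (r' :: h).reverse (A.serve (r' :: h).reverse) = r' := by
    rw [List.reverse_cons]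
    exact A.served h.reverse r'
  rw [h3] at h2
  exact h2.symm

lemma lz_cost (A : Algorithm M k c₀ f₀) (h : List M) :
    lcost c₀ (lz A) h + ∑ i, dist (lpos c₀ (lz A) h i) (A.conf h.reverse i) ≤
      A.cost h.reverse := by
  induction h with
  | nil =>
    show 0 + ∑ i, dist (c₀ i) (A.conf [] i) ≤ A.cost []
    rw [A.conf_nil]
    unfold Algorithm.cost
    simp
  | cons r h ih =>
    rw [List.reverse_cons, cost_append]
    set g := lz A (r :: h) with hg
    have hgs : g = A.serve (h.reverse ++ [r]) := by rw [hg]; unfold lz; rw [List.reverse_cons]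
    have h1 : A.conf (h.reverse ++ [r]) g = r := by rw [hgs]; exact A.served _ _
    show lcost c₀ (lz A) h + dist (lpos c₀ (lz A) h g) r +
      ∑ i, dist (Function.update (lpos c₀ (lz A) h) g r i) (A.conf (h.reverse ++ [r]) i) ≤ _
    rw [← Finset.add_sum_erase _ (fun i => dist (Function.update (lpos c₀ (lz A) h) g r i)
      (A.conf (h.reverse ++ [r]) i)) (Finset.mem_univ g)]
    rw [← Finset.add_sum_erase _ (fun i => dist (lpos c₀ (lz A) h i) (A.conf h.reverse i))
      (Finset.mem_univ g)] at ih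
    rw [← Finset.add_sum_erase _ (fun i => dist (A.conf h.reverse i)
      (A.conf (h.reverse ++ [r]) i)) (Finset.mem_univ g)]
    have h2 : ∑ i ∈ Finset.univ.erase g, dist (Function.update (lpos c₀ (lz A) h) g r i)
        (A.conf (h.reverse ++ [r]) i) ≤ ∑ i ∈ Finset.univ.erase g,
        dist (lpos c₀ (lz A) h i) (A.conf h.reverse i) +
        ∑ i ∈ Finset.univ.erase g, dist (A.conf h.reverse i) (A.conf (h.reverse ++ [r]) i) := by
      rw [← Finset.sum_add_distrib]
      apply Finset.sum_le_sum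
      intro i hi
      rw [Finset.mem_erase] at hi
      rw [Function.update_of_ne hi.1]
      exact dist_triangle _ _ _
    rw [Function.update_self, h1, dist_self]
    have h3 : dist (lpos c₀ (lz A) h g) r ≤ dist (lpos c₀ (lz A) h g) (A.conf h.reverse g) +
        dist (A.conf h.reverse g) r := dist_triangle _ _ _
    linarith

lemma off_offline {h : List M} {s : St M k} {x : ℝ} (H : Off ⟨c₀, some f₀⟩ h s x) :
    ∃ (c : ℕ → Fin k → M) (g : ℕ → Fin k), c 0 = c₀ ∧ g 0 = f₀ ∧
    c h.length = s.pos ∧ s.fr = some (g h.length) ∧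
    (∀ (t : ℕ) (ht : t < h.reverse.length), c (t + 1) (g t) = c t (g t) ∧
      c (t + 1) (g (t + 1)) = h.reverse[t]) ∧
    x = ∑ t ∈ Finset.range h.reverse.length, ∑ i, dist (c t i) (c (t + 1) i) := by
  induction H with
  | nil => exact ⟨fun _ => c₀, fun _ => f₀, rfl, rfl, rfl, rfl, by simp, by simp⟩
  | @cons h s x r s' y h1 h2 ih =>
    obtain ⟨c, g, a1, a2, a3, a4, a5, a6⟩ := ih
    obtain ⟨b1, ⟨g', b2, b3⟩, b4⟩ := h2
    have hlen : h.reverse.length = h.length := List.length_reverse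
    refine ⟨fun t => if t ≤ h.length then c t else s'.pos,
      fun t => if t ≤ h.length then g t else g', ?_, ?_, ?_, ?_, ?_, ?_⟩
    · simp [a1]
    · simp [a2]
    · simp
    · simp [b2]
    · intro t ht
      rw [List.length_reverse, List.length_cons] at ht
      by_cases ht2 : t < h.length
      · have e1 : t ≤ h.length := ht2.le
        have e2 : t + 1 ≤ h.length := ht2
        simp only [if_pos e1, if_pos e2]
        obtain ⟨d1, d2⟩ := a5 t (by rw [hlen]; exact ht2)
        refine ⟨d1, d2.trans ?_⟩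
        simp only [List.reverse_cons]
        rw [List.getElem_append_left]
      · have e0 : t = h.length := by omega
        subst e0
        have e2 : ¬ (h.length + 1 ≤ h.length) := by omega
        simp only [le_refl, if_true, if_neg e2]
        refine ⟨?_, ?_⟩
        · rw [b1 _ a4, a3]
        · rw [b3]
          simp only [List.reverse_cons]
          rw [List.getElem_append_right (by rw [hlen])]
          simp
    · rw [List.length_reverse, List.length_cons, Finset.sum_range_succ]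
      have e2 : ¬ (h.length + 1 ≤ h.length) := by omega
      simp only [le_refl, if_true, if_neg e2]
      rw [a3, ← b4, a6, hlen]
      congr 1
      apply Finset.sum_congr rfl
      intro t ht
      rw [Finset.mem_range] at ht
      rw [if_pos ht.le, if_pos (by omega)]

lemma offline_nonneg {ρ : List M} {x : ℝ} (h : OfflineCost c₀ f₀ ρ x) : 0 ≤ x := by
  obtain ⟨c, g, -, -, -, rfl⟩ := h
  exact Finset.sum_nonneg fun _ _ => Finset.sum_nonneg fun _ _ => dist_nonneg

lemma opt_nonneg (ρ : List M) : 0 ≤ opt c₀ f₀ ρ :=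
  Real.sInf_nonneg fun _ hx => offline_nonneg hx

lemma opt_le_off {h : List M} {s : St M k} {x : ℝ} (H : Off ⟨c₀, some f₀⟩ h s x) :
    opt c₀ f₀ h.reverse ≤ x := by
  obtain ⟨c, g, a1, a2, a3, a4, a5, a6⟩ := off_offline H
  exact csInf_le ⟨0, fun _ hx => offline_nonneg hx⟩ ⟨c, g, a1, a2, a5, a6⟩

end reduction

/-- The lower bound in the space `U`, for all `k ≥ 4`. -/
theorem lower (j : ℕ) (c₀ : Fin (j + 3 + 1) → U) (f₀ : Fin (j + 3 + 1))
    (A : Algorithm U (j + 3 + 1) c₀ f₀) (C : ℝ) (hC : A.Competitive C) :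
    ((j + 3 + 1 : ℕ) : ℝ) ≤ C := by
  by_contra hlt
  push Not at hlt
  set k1 : ℝ := ((j + 3 + 1 : ℕ) : ℝ) with hk1
  set ε : ℝ := min 1 ((k1 - C) / 4) with hε
  have hε0 : 0 < ε := lt_min one_pos (by linarith)
  have hε1 : ε ≤ 1 := min_le_left _ _
  have hε2 : ε ≤ (k1 - C) / 4 := min_le_right _ _
  obtain ⟨S, n0, K, h1, h2, h3, h4⟩ := tower j ε hε0 hε1
  set c : ℝ := ((j + 3 : ℕ) : ℝ) - ε with hc
  have hc1 : 1 ≤ c := by
    rw [hc]; push_cast
    linarith [Nat.cast_nonneg (α := ℝ) j]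
  obtain ⟨n, hn⟩ := exists_nat_ge ((K + (c + 1) * ((((j + 3 : ℕ) : ℝ) + 2) * ((n0 : ℝ) + 2))) / ε +
    n0)
  have hn0 : (0 : ℝ) ≤ n0 := Nat.cast_nonneg _
  have hpos : 0 ≤ (K + (c + 1) * ((((j + 3 : ℕ) : ℝ) + 2) * ((n0 : ℝ) + 2))) / ε := by positivity
  have hn1 : n0 ≤ n := by
    have : (n0 : ℝ) ≤ n := by linarith
    exact_mod_cast this
  have hlarge : K + (c + 1) * ((((j + 3 : ℕ) : ℝ) + 2) * ((n0 : ℝ) + 2)) ≤
      2 * ε * ((n : ℝ) + 2) := by
    have h5 : (K + (c + 1) * ((((j + 3 : ℕ) : ℝ) + 2) * ((n0 : ℝ) + 2))) / ε ≤ (n : ℝ) + 2 := by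
      linarith
    rw [div_le_iff₀ hε0] at h5
    have : 0 ≤ ε * ((n : ℝ) + 2) := by positivity
    linarith
  obtain ⟨a, ha⟩ : S.Nonempty := by rw [← Finset.card_pos]; omega
  have hplus := fun N => plus (S := S) (z := far n) (D := (n0 : ℝ) + 2) (L := (n : ℝ) + 2)
      (c := c) (ε := ε) (K := K) (by omega : 2 ≤ j + 3) h1 (far_notMem h2 hn1)
      (fun s hs s' hs' => dist_le_of_mem (h2 s hs) (h2 s' hs'))
      (fun s hs => dist_far ((h2.mono hn1) s hs)) (dist_far_min n) (by positivity) (by positivity)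
      hc1 hε0 hε1 h3 hlarge h4 ha (lz_valid A) c₀ N
  obtain ⟨K0, hK0⟩ := hC
  set Kp : ℝ := (((j + 3 + 1 : ℕ) : ℝ) * ((n : ℝ) + 2) + K2 (j + 3) ((n0 : ℝ) + 2) ((n : ℝ) + 2) c K +
          (c + 1 - ε) * WW (far n) a c₀) with hKp
  have hgap : 0 < c + 1 - ε - C := by
    have : c + 1 - ε = k1 - 2 * ε := by rw [hc, hk1]; push_cast; ring
    rw [this]
    linarith
  set X : ℝ := (|K0| + |Kp|) / (c + 1 - ε - C) with hX
  have hX0 : 0 ≤ X := by positivity
  obtain ⟨h, -, hN, hoff⟩ := hplus (|C| * X + |K0| + 1)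
  obtain ⟨s, x, e1, -, e3⟩ := hoff h (List.suffix_refl _) ⟨c₀, some f₀⟩
  have e3' : (c + 1 - ε) * x ≤ lcost c₀ (lz A) h + Kp := e3
  have hx0 := e1.nonneg
  have hopt := opt_le_off e1
  have hopt0 := opt_nonneg (c₀ := c₀) (f₀ := f₀) h.reverse
  have hcost := lz_cost A h
  have hsum : 0 ≤ ∑ i, dist (lpos c₀ (lz A) h i) (A.conf h.reverse i) :=
    Finset.sum_nonneg fun _ _ => dist_nonneg
  have hK := hK0 h.reverse
  have hK1 := le_abs_self K0
  have hK2 := le_abs_self Kp
  have hC1 := le_abs_self C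
  -- the cost of the algorithm
  rcases le_total 0 C with hC0 | hC0
  · have h5 : C * opt c₀ f₀ h.reverse ≤ C * x := mul_le_mul_of_nonneg_left hopt hC0
    have h6 : (c + 1 - ε - C) * x ≤ |K0| + |Kp| := by
      have : (c + 1 - ε - C) * x = (c + 1 - ε) * x - C * x := by ring
      rw [this]; linarith
    have h7 : x ≤ X := by
      rw [hX, le_div_iff₀ hgap]; linarith
    have h8 : C * x ≤ |C| * X := mul_le_mul hC1 h7 hx0 (abs_nonneg _)
    linarith
  · have h5 : C * opt c₀ f₀ h.reverse ≤ 0 := mul_nonpos_of_nonpos_of_nonneg hC0 hopt0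
    have h8 : 0 ≤ |C| * X := mul_nonneg (abs_nonneg _) hX0
    linarith

end Pool.Agent.R566.Delayed
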