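import Pool.Agent.R566.Delayed.Model

set_option autoImplicit false
set_option linter.unusedSectionVars false

open scoped BigOperators

namespace Pool.Agent.R566.Delayed

variable {M : Type} [MetricSpace M] {k : ℕ}

/-! ### Offline schedules.  Lists of requests are in reversed order: the last request is the head. -/

/-- Positions of the servers and the frozen server (if there is one). -/
structure St (M : Type) (k : ℕ) where
  pos : Fin k → M
  fr : Option (Fin k)

/-- One step of an offline schedule. -/
def Step (s : St M k) (r : M) (s' : St M k) (y : ℝ) : Prop :=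
  (∀ f, s.fr = some f → s'.pos f = s.pos f) ∧ (∃ g, s'.fr = some g ∧ s'.pos g = r) ∧
    y = ∑ i, dist (s.pos i) (s'.pos i)

/-- There is a schedule from `s0` that serves the requests, ends in the given state
and has the given cost. -/
inductive Off (s0 : St M k) : List M → St M k → ℝ → Prop
  | nil : Off s0 [] s0 0
  | cons {h : List M} {s : St M k} {x : ℝ} {r : M} {s' : St M k} {y : ℝ} :
      Off s0 h s x → Step s r s' y → Off s0 (r :: h) s' (x + y)

lemma Step.nonneg {s s' : St M k} {r : M} {y : ℝ} (h : Step s r s' y) : 0 ≤ y := by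
  rw [h.2.2]; exact Finset.sum_nonneg fun _ _ => dist_nonneg

lemma Off.nonneg {s0 s : St M k} {h : List M} {x : ℝ} (H : Off s0 h s x) : 0 ≤ x := by
  induction H with
  | nil => exact le_refl _
  | cons _ h2 ih => exact add_nonneg ih h2.nonneg

lemma Off.trans {s0 s s' : St M k} {g h : List M} {x y : ℝ} (H : Off s0 g s x)
    (H2 : Off s h s' y) : Off s0 (h ++ g) s' (x + y) := by
  induction H2 with
  | nil => simpa using H
  | cons _ h2 ih =>
    rw [List.cons_append, ← add_assoc]
    exact Off.cons ih h2

/-- Changing the start positions (but not the position of the frozen server). -/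
lemma Off.shift {c c' : Fin k → M} {f : Option (Fin k)} (hf : ∀ i, f = some i → c' i = c i)
    {h : List M} {s : St M k} {x : ℝ} (H : Off ⟨c, f⟩ h s x) (hne : h ≠ []) :
    ∃ x', x' ≤ x + ∑ i, dist (c' i) (c i) ∧ Off ⟨c', f⟩ h s x' := by
  induction H with
  | nil => exact absurd rfl hne
  | @cons h s x r s' y h1 h2 ih =>
    rcases h with _ | ⟨r', h⟩
    · cases h1
      refine ⟨0 + ∑ i, dist (c' i) (s'.pos i), ?_, ?_⟩
      · have : ∑ i, dist (c' i) (s'.pos i) ≤ ∑ i, (dist (c' i) (c i) + dist (c i) (s'.pos i)) :=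
          Finset.sum_le_sum fun i _ => dist_triangle _ _ _
        rw [Finset.sum_add_distrib] at this
        have h3 := h2.2.2
        simp only at h3
        linarith
      · refine Off.cons Off.nil ⟨?_, h2.2.1, rfl⟩
        intro i hi
        show s'.pos i = c' i
        rw [hf i hi]
        exact h2.1 i hi
    · obtain ⟨x', hx', H'⟩ := ih (by simp)
      exact ⟨x' + y, by linarith, Off.cons H' h2⟩

/-! ### Lifting a schedule for `k` servers -/

/-- Add a server at `z`, with index `j`. -/
def lift (j : Fin (k + 1)) (z : M) (s : St M k) : St M (k + 1) :=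
  ⟨Fin.insertNth (α := fun _ => M) j z s.pos, some (s.fr.elim j j.succAbove)⟩

lemma lift_pos_self (j : Fin (k + 1)) (z : M) (s : St M k) : (lift j z s).pos j = z := by
  simp [lift]

lemma lift_pos_succAbove (j : Fin (k + 1)) (z : M) (s : St M k) (a : Fin k) :
    (lift j z s).pos (j.succAbove a) = s.pos a := by
  simp [lift]

lemma Step.lift {s s' : St M k} {r : M} {y : ℝ} (h : Step s r s' y) (j : Fin (k + 1)) (z : M) :
    Step (lift j z s) r (lift j z s') y := by
  obtain ⟨h1, ⟨g, hg1, hg2⟩, h3⟩ := h
  refine ⟨?_, ⟨j.succAbove g, ?_, ?_⟩, ?_⟩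
  · intro f hf
    have hf' : s.fr.elim j j.succAbove = f := Option.some.inj hf
    rcases hs : s.fr with _ | a
    · rw [hs] at hf'
      simp only [Option.elim] at hf'
      rw [← hf', lift_pos_self, lift_pos_self]
    · rw [hs] at hf'
      simp only [Option.elim] at hf'
      rw [← hf', lift_pos_succAbove, lift_pos_succAbove]
      exact h1 a hs
  · show some (s'.fr.elim j j.succAbove) = _
    rw [hg1]
    rfl
  · rw [lift_pos_succAbove]; exact hg2
  · rw [Fin.sum_univ_succAbove _ j, lift_pos_self, lift_pos_self, dist_self, zero_add, h3]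
    apply Finset.sum_congr rfl
    intro a _
    rw [lift_pos_succAbove, lift_pos_succAbove]

lemma Off.lift {s0 s : St M k} {h : List M} {x : ℝ} (H : Off s0 h s x) (j : Fin (k + 1)) (z : M) :
    Off (lift j z s0) h (lift j z s) x := by
  induction H with
  | nil => exact Off.nil
  | cons _ h2 ih => exact Off.cons ih (h2.lift j z)

/-- A state in which the server `z` is frozen and all the others are in `S`. -/
def PSt (S : Finset M) (z : M) (s : St M (k + 1)) : Prop :=
  ∃ j, s.fr = some j ∧ s.pos j = z ∧ ∀ i, i ≠ j → s.pos i ∈ S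

lemma PSt.eq_lift {S : Finset M} {z : M} {s : St M (k + 1)} (h : PSt S z s) :
    ∃ (j : Fin (k + 1)) (c : Fin k → M), (∀ i, c i ∈ S) ∧ s = lift j z ⟨c, none⟩ := by
  obtain ⟨j, h1, h2, h3⟩ := h
  refine ⟨j, fun a => s.pos (j.succAbove a), fun a => h3 _ (Fin.succAbove_ne j a), ?_⟩
  obtain ⟨p, f⟩ := s
  simp only at h1 h2 h3
  subst h1 h2
  unfold lift
  simp only [Option.elim]
  congr 1
  exact (Fin.insertNth_self_removeNth (α := fun _ => M) j p).symm

/-! ### Lazy online algorithms -/

/-- The positions of the servers of the lazy algorithm `σ`; the server `σ (r :: h)` serves the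
request `r` after the history `h`. -/
def lpos (c0 : Fin k → M) (σ : List M → Fin k) : List M → Fin k → M
  | [] => c0
  | r :: h => Function.update (lpos c0 σ h) (σ (r :: h)) r

/-- The cost of the lazy algorithm. -/
noncomputable def lcost (c0 : Fin k → M) (σ : List M → Fin k) : List M → ℝ
  | [] => 0
  | r :: h => lcost c0 σ h + dist (lpos c0 σ h (σ (r :: h))) r

/-- The frozen server does not move. -/
def Valid (σ : List M → Fin k) : Prop := ∀ r r' h, σ (r :: r' :: h) = σ (r' :: h) → r = r'

lemma lcost_nonneg (c0 : Fin k → M) (σ : List M → Fin k) (h : List M) : 0 ≤ lcost c0 σ h := by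
  induction h with
  | nil => exact le_refl _
  | cons r h ih => exact add_nonneg ih dist_nonneg

lemma lcost_mono (c0 : Fin k → M) (σ : List M → Fin k) (h g : List M) :
    lcost c0 σ g ≤ lcost c0 σ (h ++ g) := by
  induction h with
  | nil => exact le_refl _
  | cons r h ih => exact ih.trans (le_add_of_nonneg_right dist_nonneg)

/-- The lower bound `c` for `k` servers when only points of `S` are requested. -/
def HH (S : Finset M) (k : ℕ) (c : ℝ) : Prop :=
  ∃ K : ℝ, ∀ σ : List M → Fin k, Valid σ → ∀ (c0 : Fin k → M) (N : ℝ),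
    ∃ h : List M, (∀ r ∈ h, r ∈ S) ∧ N ≤ lcost c0 σ h ∧
      ∀ h', h' <:+ h → ∀ c' : Fin k → M, (∀ i, c' i ∈ S) →
        ∃ (s : St M k) (x : ℝ), Off ⟨c', none⟩ h' s x ∧ (∀ i, s.pos i ∈ S) ∧
          c * x ≤ lcost c0 σ h' + K

/-- The number of servers at `z`. -/
noncomputable def nz (z : M) (c : Fin k → M) : ℕ := by
  classical exact (Finset.univ.filter fun i => c i = z).card

lemma nz_le (z : M) (c : Fin k → M) : nz z c ≤ k := by
  classical
  unfold nz
  refine (Finset.card_le_univ _).trans ?_
  simp

open Classical in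
lemma nz_update (z : M) (c : Fin k → M) (g : Fin k) (r : M) :
    nz z (Function.update c g r) + (if c g = z then 1 else 0) =
      nz z c + (if r = z then 1 else 0) := by
  unfold nz
  have h1 : ∀ c : Fin k → M, (Finset.univ.filter fun i => c i = z).card =
      ∑ i, if c i = z then 1 else 0 := by
    intro c; rw [Finset.card_filter]
  rw [h1, h1, ← Finset.add_sum_erase _ _ (Finset.mem_univ g),
    ← Finset.add_sum_erase _ (fun i => if c i = z then 1 else 0) (Finset.mem_univ g)]
  rw [Function.update_self]
  have h2 : ∑ i ∈ Finset.univ.erase g, (if Function.update c g r i = z then 1 else 0) =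
      ∑ i ∈ Finset.univ.erase g, (if c i = z then 1 else 0) := by
    apply Finset.sum_congr rfl
    intro i hi
    rw [Finset.mem_erase] at hi
    rw [Function.update_of_ne hi.1]
  rw [h2]
  ring

/-- The potential. -/
noncomputable def Psi (z : M) (L : ℝ) (c0 : Fin k → M) (σ : List M → Fin k) (h : List M) : ℝ :=
  lcost c0 σ h - L * nz z (lpos c0 σ h)

lemma psi_le {z : M} {L : ℝ} (hL : 0 ≤ L) (c0 : Fin k → M) (σ : List M → Fin k) (h : List M) :
    Psi z L c0 σ h ≤ lcost c0 σ h := by
  unfold Psi
  have : 0 ≤ L * (nz z (lpos c0 σ h) : ℝ) := by positivity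
  linarith

lemma psi_nil {z : M} {L : ℝ} (hL : 0 ≤ L) (c0 : Fin k → M) (σ : List M → Fin k) :
    -(k * L) ≤ Psi z L c0 σ [] := by
  unfold Psi lpos lcost
  have h1 : (nz z c0 : ℝ) ≤ k := by exact_mod_cast nz_le z c0
  have h2 := mul_le_mul_of_nonneg_left h1 hL
  linarith

/-- A request at `z` does not decrease the potential. -/
lemma psi_z {z : M} {L : ℝ} (hmin : ∀ y, y ≠ z → L ≤ dist y z) (c0 : Fin k → M)
    (σ : List M → Fin k) (h : List M) : Psi z L c0 σ h ≤ Psi z L c0 σ (z :: h) := by
  classical
  unfold Psi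
  have h1 := nz_update z (lpos c0 σ h) (σ (z :: h)) z
  rw [if_pos rfl] at h1
  show _ ≤ lcost c0 σ h + dist (lpos c0 σ h (σ (z :: h))) z -
    L * nz z (Function.update (lpos c0 σ h) (σ (z :: h)) z)
  by_cases h2 : lpos c0 σ h (σ (z :: h)) = z
  · rw [if_pos h2] at h1
    have h3 : nz z (Function.update (lpos c0 σ h) (σ (z :: h)) z) = nz z (lpos c0 σ h) := by omega
    rw [h3, h2, dist_self]
    linarith
  · rw [if_neg h2] at h1
    have h3 : nz z (Function.update (lpos c0 σ h) (σ (z :: h)) z) = nz z (lpos c0 σ h) + 1 := by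
      omega
    rw [h3]
    have h4 := hmin _ h2
    push_cast
    linarith

/-- A request at `r ≠ z` served by a server that is not at `z`. -/
lemma psi_stay {z : M} {L : ℝ} (c0 : Fin k → M)
    (σ : List M → Fin k) (h : List M) {r : M} (hr : r ≠ z) (h2 : lpos c0 σ h (σ (r :: h)) ≠ z) :
    Psi z L c0 σ (r :: h) = Psi z L c0 σ h + dist (lpos c0 σ h (σ (r :: h))) r := by
  classical
  unfold Psi
  have h1 := nz_update z (lpos c0 σ h) (σ (r :: h)) r
  rw [if_neg hr, if_neg h2] at h1
  show lcost c0 σ h + dist (lpos c0 σ h (σ (r :: h))) r -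
    L * nz z (Function.update (lpos c0 σ h) (σ (r :: h)) r) = _
  have h3 : nz z (Function.update (lpos c0 σ h) (σ (r :: h)) r) = nz z (lpos c0 σ h) := by omega
  rw [h3]
  ring

/-- A request at `r ≠ z` served by a server from `z`. -/
lemma psi_leave {z : M} {L : ℝ} (c0 : Fin k → M)
    (σ : List M → Fin k) (h : List M) {r : M} (hr : r ≠ z) (hd : dist z r = L)
    (h2 : lpos c0 σ h (σ (r :: h)) = z) :
    Psi z L c0 σ (r :: h) = Psi z L c0 σ h + 2 * L := by
  classical
  unfold Psi
  have h1 := nz_update z (lpos c0 σ h) (σ (r :: h)) r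
  rw [if_neg hr, if_pos h2] at h1
  show lcost c0 σ h + dist (lpos c0 σ h (σ (r :: h))) r -
    L * nz z (Function.update (lpos c0 σ h) (σ (r :: h)) r) = _
  have h3 : (nz z (lpos c0 σ h) : ℝ) =
      nz z (Function.update (lpos c0 σ h) (σ (r :: h)) r) + 1 := by
    have : nz z (lpos c0 σ h) = nz z (Function.update (lpos c0 σ h) (σ (r :: h)) r) + 1 := by omega
    exact_mod_cast this
  rw [h3, h2, hd]
  ring

end Pool.Agent.R566.Delayed
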