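import Pool.Agent.R566.Delayed.Phase

set_option autoImplicit false
set_option linter.unusedSectionVars false

open scoped BigOperators

namespace Pool.Agent.R566.Delayed

variable {M : Type} [MetricSpace M] {k : ℕ}

lemma suffix_append {A : Type} {h'' hp h : List A} (H : h'' <:+ hp ++ h) :
    h'' <:+ h ∨ ∃ h', h' <:+ hp ∧ h'' = h' ++ h := by
  induction hp with
  | nil => left; exact H
  | cons a l ih =>
    rw [List.cons_append, List.suffix_cons_iff] at H
    rcases H with H | H
    · right; exact ⟨a :: l, List.suffix_refl _, H⟩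
    · rcases ih H with H | ⟨h', h1, h2⟩
      · left; exact H
      · right; exact ⟨h', h1.trans (List.suffix_cons a l), h2⟩

section main

variable {S : Finset M} {z : M} {D L c ε K : ℝ}

/-- The constant for an incomplete phase. -/
def K2 (k : ℕ) (D L c K : ℝ) : ℝ := K + 2 * L + (c + 1) * (L + (k + 2) * D)

/-- The offline cost in an incomplete phase. -/
lemma inphase (hk : 2 ≤ k) (hcard : S.card = k + 1)
    (hD : ∀ s ∈ S, ∀ s' ∈ S, dist s s' ≤ D) (hL : ∀ s ∈ S, dist s z = L) (hL0 : 0 < L)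
    (hD0 : 0 ≤ D) (hc : 1 ≤ c) (hε0 : 0 < ε) (_hε1 : ε ≤ 1) (_hK0 : 0 ≤ K)
    (h : List M) (hS : ∀ r ∈ h, r ∈ S) {v e : ℝ} (_he0 : 0 ≤ e) (he : e ≤ D)
    (H : ∀ c' : Fin k → M, (∀ i, c' i ∈ S) → ∃ (s : St M k) (x : ℝ), Off ⟨c', none⟩ h s x ∧
      (∀ i, s.pos i ∈ S) ∧ c * (x - e) ≤ v + K) (p : St M (k + 1)) (hp : PSt S z p) :
    ∃ (s : St M (k + 1)) (x : ℝ), Off p h s x ∧ (∀ i, s.pos i ∈ insert z (S : Set M)) ∧
      (c + 1 - ε) * x ≤ v + K2 k D L c K := by
  have hkD : 0 ≤ ((k : ℝ) + 2) * D := by positivity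
  have hkD1 : D ≤ ((k : ℝ) + 2) * D := by nlinarith [Nat.cast_nonneg (α := ℝ) k]
  by_cases hv : v + K ≤ 2 * L * c
  · obtain ⟨s, x, h1, h2, h3⟩ := optionA (L := (v + K) / c + e) p hp h (by
      intro c' hc'
      obtain ⟨s, x, h1, h2, h3⟩ := H c' hc'
      refine ⟨s, x, h1, h2, ?_⟩
      have : x - e ≤ (v + K) / c := by
        rw [le_div_iff₀ (by linarith)]; linarith
      linarith)
    refine ⟨s, x, h1, h3, ?_⟩
    have hx0 := h1.nonneg
    have hc0 : 0 < c := by linarith
    have h4 : (v + K) / c ≤ 2 * L := by rw [div_le_iff₀ hc0]; exact hv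
    have h5 : c * ((v + K) / c) = v + K := by field_simp
    have h6 : c * x ≤ v + K + c * e := by nlinarith
    have h7 : (1 - ε) * x ≤ 1 * (2 * L + e) := by
      apply mul_le_mul (by linarith) (by linarith) hx0 (by norm_num)
    have h8 : (c + 1) * e ≤ (c + 1) * (L + (k + 2) * D) := by
      apply mul_le_mul_of_nonneg_left _ (by linarith)
      linarith
    unfold K2
    have : (c + 1 - ε) * x = c * x + (1 - ε) * x := by ring
    rw [this]
    linarith
  · push Not at hv
    obtain ⟨s, x, h1, h2, h3⟩ := optionB' hk hD0 hL0.le hD hL hcard p hp h hS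
    refine ⟨s, x, h1, h3, ?_⟩
    have hx0 := h1.nonneg
    have h4 : (c + 1 - ε) * x ≤ (c + 1) * (L + (k + 2) * D) := by
      apply mul_le_mul (by linarith) h2 hx0 (by linarith)
    have h5 : 0 ≤ 2 * L * c := by positivity
    unfold K2
    linarith

/-- The offline cost in a complete phase. -/
lemma fullphase (hk : 2 ≤ k) (hcard : S.card = k + 1)
    (hD : ∀ s ∈ S, ∀ s' ∈ S, dist s s' ≤ D) (hL : ∀ s ∈ S, dist s z = L) (hL0 : 0 < L)
    (hD0 : 0 ≤ D) (hc : 1 ≤ c) (hε0 : 0 < ε) (hε1 : ε ≤ 1)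
    (hLarge : K + (c + 1) * ((k + 2) * D) ≤ 2 * ε * L)
    (h : List M) (hS : ∀ r ∈ h, r ∈ S) {v : ℝ} (r : M) (hr : r ∈ S)
    (H : ∀ c' : Fin k → M, (∀ i, c' i ∈ S) → ∃ (s : St M k) (x : ℝ), Off ⟨c', none⟩ h s x ∧
      (∀ i, s.pos i ∈ S) ∧ c * x ≤ v + K) (p : St M (k + 1)) (hp : PSt S z p) :
    ∃ (s : St M (k + 1)) (x : ℝ), Off p (z :: r :: h) s x ∧ PSt S z s ∧
      (c + 1 - ε) * x ≤ v + 2 * L := by
  have hkD : 0 ≤ ((k : ℝ) + 2) * D := by positivity
  have hkD1 : D ≤ ((k : ℝ) + 2) * D := by nlinarith [Nat.cast_nonneg (α := ℝ) k]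
  by_cases hv : v + K ≤ 2 * L * c
  · obtain ⟨s, x, h1, h2, h3⟩ := optionAz (L := (v + K) / c) hk hD p hp h r hr (by
      intro c' hc'
      obtain ⟨s, x, h1, h2, h3⟩ := H c' hc'
      refine ⟨s, x, h1, h2, ?_⟩
      rw [le_div_iff₀ (by linarith)]; linarith)
    refine ⟨s, x, h1, h3, ?_⟩
    have hx0 := h1.nonneg
    have hc0 : 0 < c := by linarith
    have h4 : (v + K) / c ≤ 2 * L := by rw [div_le_iff₀ hc0]; exact hv
    have h5 : c * ((v + K) / c) = v + K := by field_simp
    have h6 : (c + 1 - ε) * x ≤ (c + 1 - ε) * ((v + K) / c + D) :=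
      mul_le_mul_of_nonneg_left h2 (by linarith)
    have h7 : (1 - ε) * ((v + K) / c) ≤ (1 - ε) * (2 * L) :=
      mul_le_mul_of_nonneg_left h4 (by linarith)
    have h8 : (c + 1 - ε) * D ≤ (c + 1) * ((k + 2) * D) := by
      apply mul_le_mul (by linarith) hkD1 hD0 (by linarith)
    have h9 : (c + 1 - ε) * ((v + K) / c + D) =
      c * ((v + K) / c) + (1 - ε) * ((v + K) / c) + (c + 1 - ε) * D := by ring
    rw [h9, h5] at h6
    linarith
  · push Not at hv
    obtain ⟨s, x, h1, h2, h3⟩ := optionBz hk hD0 hL0.le hD hL hcard p hp (r :: h) (by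
      intro q hq
      rcases List.mem_cons.1 hq with h4 | h4
      · rw [h4]; exact hr
      · exact hS q h4) (by simp)
    refine ⟨s, x, h1, h3, ?_⟩
    have h4 : (c + 1 - ε) * x ≤ (c + 1 - ε) * (2 * L + (k + 2) * D) :=
      mul_le_mul_of_nonneg_left h2 (by linarith)
    have h5 : (c + 1 - ε) * ((k + 2) * D) ≤ (c + 1) * ((k + 2) * D) :=
      mul_le_mul_of_nonneg_right (by linarith) hkD
    nlinarith

/-- All phases. -/
lemma phases (hk : 2 ≤ k) (hcard : S.card = k + 1) (hz : z ∉ S)
    (hD : ∀ s ∈ S, ∀ s' ∈ S, dist s s' ≤ D) (hL : ∀ s ∈ S, dist s z = L)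
    (hmin : ∀ y, y ≠ z → L ≤ dist y z) (hL0 : 0 < L)
    (hD0 : 0 ≤ D) (hc : 1 ≤ c) (hε0 : 0 < ε) (hε1 : ε ≤ 1) (hK0 : 0 ≤ K)
    (hLarge : K + (c + 1) * ((k + 2) * D) ≤ 2 * ε * L) (H : HK S k c K)
    {σ : List M → Fin (k + 1)} (hσ : Valid σ) (c0 : Fin (k + 1) → M) (N : ℝ) (j : ℕ) :
    ∃ h : List M, (∀ r ∈ h, r ∈ insert z (S : Set M)) ∧
      (∀ h', h' <:+ h → ∀ p, PSt S z p → ∃ (s : St M (k + 1)) (x : ℝ), Off p h' s x ∧
        (∀ i, s.pos i ∈ insert z (S : Set M)) ∧
        (c + 1 - ε) * x ≤ Psi z L c0 σ (h' ++ [z]) + (((k + 1 : ℕ) : ℝ) * L + K2 k D L c K)) ∧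
      (N ≤ lcost c0 σ (h ++ [z]) ∨
        ((∃ g0, h ++ [z] = z :: g0) ∧
          (∀ p, PSt S z p → ∃ (s : St M (k + 1)) (x : ℝ), Off p h s x ∧ PSt S z s ∧
            (c + 1 - ε) * x ≤ Psi z L c0 σ (h ++ [z]) + ((k + 1 : ℕ) : ℝ) * L) ∧
          j * L ≤ lcost c0 σ (h ++ [z]))) := by
  have hK2 : 0 ≤ K2 k D L c K := by
    unfold K2
    positivity
  induction j with
  | zero =>
    have h0 : -(((k + 1 : ℕ) : ℝ) * L) ≤ Psi z L c0 σ [z] :=
      (psi_nil hL0.le c0 σ).trans (psi_z hmin c0 σ [])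
    refine ⟨[], by simp, ?_, Or.inr ⟨⟨[], rfl⟩, ?_, ?_⟩⟩
    · intro h' hh' p hp
      have : h' = [] := List.suffix_nil.1 hh'
      subst this
      obtain ⟨j, h1, h2, h3⟩ := hp
      refine ⟨p, 0, Off.nil, fun i => ?_, ?_⟩
      · by_cases hi : i = j
        · rw [hi, h2]; exact Set.mem_insert _ _
        · exact Set.mem_insert_of_mem _ (h3 i hi)
      · rw [mul_zero, List.nil_append]; linarith
    · intro p hp
      refine ⟨p, 0, Off.nil, hp, ?_⟩
      rw [mul_zero, List.nil_append]; linarith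
    · rw [Nat.cast_zero, zero_mul]; exact lcost_nonneg _ _ _
  | succ j ih =>
    obtain ⟨h, hS, hall, hor⟩ := ih
    rcases hor with hN | ⟨⟨g0, hg0⟩, hb, hcost⟩
    · exact ⟨h, hS, hall, Or.inl hN⟩
    have hgz : lpos c0 σ (h ++ [z]) (σ (h ++ [z])) = z := by
      rw [hg0]
      show Function.update (lpos c0 σ g0) (σ (z :: g0)) z (σ (z :: g0)) = z
      rw [Function.update_self]
    obtain ⟨hp, e1, e2, e3⟩ := phase (L := L) hk hz H hσ c0 hgz N
    have hap : hp ++ (h ++ [z]) = hp ++ h ++ [z] := by rw [List.append_assoc]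
    -- prefixes of the phase
    have hpre : ∀ h'', h'' <:+ hp ++ h → ∀ p, PSt S z p → ∃ (s : St M (k + 1)) (x : ℝ),
        Off p h'' s x ∧ (∀ i, s.pos i ∈ insert z (S : Set M)) ∧
        (c + 1 - ε) * x ≤ Psi z L c0 σ (h'' ++ [z]) + (((k + 1 : ℕ) : ℝ) * L + K2 k D L c K) := by
      intro h'' hh'' p hpp
      rcases suffix_append hh'' with h1 | ⟨h', h1, rfl⟩
      · exact hall h'' h1 p hpp
      · obtain ⟨p', x, f1, f2, f3⟩ := hb p hpp
        obtain ⟨s, y, f4, f5, f6⟩ := inphase (e := 0)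
          (v := Psi z L c0 σ (h' ++ (h ++ [z])) - Psi z L c0 σ (h ++ [z])) hk hcard hD hL hL0 hD0
          hc hε0 hε1 hK0 h' (fun r hr => e1 r (h1.subset hr)) (le_refl _) hD0 (by
            intro c' hc'
            obtain ⟨s, x, f7, f8, f9⟩ := e2 h' h1 c' hc'
            exact ⟨s, x, f7, f8, by rw [sub_zero]; exact f9⟩) p' f2
        refine ⟨s, x + y, f1.trans f4, f5, ?_⟩
        rw [mul_add, List.append_assoc]
        linarith
    have hmem : ∀ r ∈ hp ++ h, r ∈ insert z (S : Set M) := by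
      intro r hr
      rcases List.mem_append.1 hr with h1 | h1
      · exact Set.mem_insert_of_mem _ (e1 r h1)
      · exact hS r h1
    rcases e3 with e3 | ⟨r, hr, e3⟩
    · exact ⟨hp ++ h, hmem, hpre, Or.inl (by rw [← hap]; exact e3)⟩
    · -- the phase is complete
      have hrz : r ≠ z := fun h1 => hz (h1 ▸ hr)
      have hdr : dist z r = L := by rw [dist_comm]; exact hL r hr
      have p1 := psi_leave c0 σ (hp ++ (h ++ [z])) hrz hdr e3
      have p2 := psi_z hmin c0 σ (r :: (hp ++ (h ++ [z])))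
      have hbd : ∀ p, PSt S z p → ∃ (s : St M (k + 1)) (x : ℝ),
          Off p (z :: r :: (hp ++ h)) s x ∧ PSt S z s ∧
            (c + 1 - ε) * x ≤ Psi z L c0 σ (z :: r :: (hp ++ h) ++ [z]) +
              ((k + 1 : ℕ) : ℝ) * L := by
        intro p hpp
        obtain ⟨p', x, f1, f2, f3⟩ := hb p hpp
        obtain ⟨s, y, f4, f5, f6⟩ := fullphase
          (v := Psi z L c0 σ (hp ++ (h ++ [z])) - Psi z L c0 σ (h ++ [z])) hk hcard hD hL hL0 hD0
          hc hε0 hε1 hLarge hp e1 r hr (e2 hp (List.suffix_refl _)) p' f2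
        refine ⟨s, x + y, f1.trans f4, f5, ?_⟩
        have heq : z :: r :: (hp ++ h) ++ [z] = z :: r :: (hp ++ (h ++ [z])) := by simp
        rw [heq, mul_add]
        linarith
      refine ⟨z :: r :: (hp ++ h), ?_, ?_, Or.inr ⟨⟨_, rfl⟩, hbd, ?_⟩⟩
      · intro q hq
        rcases List.mem_cons.1 hq with h1 | h1
        · rw [h1]; exact Set.mem_insert _ _
        · rcases List.mem_cons.1 h1 with h2 | h2
          · rw [h2]; exact Set.mem_insert_of_mem _ hr
          · exact hmem q h2
      · intro h'' hh'' p hpp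
        rcases List.suffix_cons_iff.1 hh'' with h1 | h1
        · subst h1
          obtain ⟨s, x, f1, ⟨j', f2, f3, f4⟩, f5⟩ := hbd p hpp
          refine ⟨s, x, f1, fun i => ?_, by linarith⟩
          by_cases hi : i = j'
          · rw [hi, f3]; exact Set.mem_insert _ _
          · exact Set.mem_insert_of_mem _ (f4 i hi)
        rcases List.suffix_cons_iff.1 h1 with h2 | h2
        · subst h2
          obtain ⟨p', x, f1, f2, f3⟩ := hb p hpp
          obtain ⟨s, y, f4, f5, f6⟩ := inphase (e := D)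
            (v := Psi z L c0 σ (hp ++ (h ++ [z])) - Psi z L c0 σ (h ++ [z])) hk hcard hD hL hL0 hD0
            hc hε0 hε1 hK0 (r :: hp) (by
              intro q hq
              rcases List.mem_cons.1 hq with h4 | h4
              · rw [h4]; exact hr
              · exact e1 q h4) hD0 (le_refl _) (by
              intro c' hc'
              obtain ⟨s, x, f7, f8, f9⟩ := e2 hp (List.suffix_refl _) c' hc'
              obtain ⟨s', y, g1, g2, g3⟩ := serve_one hk hD s f8 hr
              refine ⟨s', x + y, Off.cons f7 g1, g3, ?_⟩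
              have : c * (x + y - D) ≤ c * x := mul_le_mul_of_nonneg_left (by linarith) (by linarith)
              linarith) p' f2
          refine ⟨s, x + y, f1.trans f4, f5, ?_⟩
          have heq : r :: (hp ++ h) ++ [z] = r :: (hp ++ (h ++ [z])) := by simp
          rw [heq, mul_add]
          linarith
        · exact hpre h'' h2 p hpp
      · have heq : z :: r :: (hp ++ h) ++ [z] = z :: r :: (hp ++ (h ++ [z])) := by simp
        rw [heq]
        have q1 : lcost c0 σ (r :: (hp ++ (h ++ [z]))) = lcost c0 σ (hp ++ (h ++ [z])) + L := by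
          show _ + dist (lpos c0 σ (hp ++ (h ++ [z])) (σ (r :: (hp ++ (h ++ [z]))))) r = _
          rw [e3, hdr]
        have q2 := lcost_mono c0 σ [z] (r :: (hp ++ (h ++ [z])))
        have q3 := lcost_mono c0 σ hp (h ++ [z])
        have q4 : lcost c0 σ (z :: r :: (hp ++ (h ++ [z]))) ≥ lcost c0 σ (r :: (hp ++ (h ++ [z]))) := q2
        push_cast
        linarith

/-- The weight of a start state. -/
noncomputable def WW {k : ℕ} (z a : M) (c' : Fin k → M) : ℝ :=
  ∑ i, dist (c' i) z + ∑ i, dist (c' i) a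

lemma WW_nonneg {k : ℕ} (z a : M) (c' : Fin k → M) : 0 ≤ WW z a c' :=
  add_nonneg (Finset.sum_nonneg fun _ _ => dist_nonneg) (Finset.sum_nonneg fun _ _ => dist_nonneg)

/-- The step of the induction, for arbitrary start states of the offline schedule. -/
theorem plus (hk : 2 ≤ k) (hcard : S.card = k + 1) (hz : z ∉ S)
    (hD : ∀ s ∈ S, ∀ s' ∈ S, dist s s' ≤ D) (hL : ∀ s ∈ S, dist s z = L)
    (hmin : ∀ y, y ≠ z → L ≤ dist y z) (hL0 : 0 < L)
    (hD0 : 0 ≤ D) (hc : 1 ≤ c) (hε0 : 0 < ε) (hε1 : ε ≤ 1) (hK0 : 0 ≤ K)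
    (hLarge : K + (c + 1) * ((k + 2) * D) ≤ 2 * ε * L) (H : HK S k c K) {a : M} (ha : a ∈ S)
    {σ : List M → Fin (k + 1)} (hσ : Valid σ) (c0 : Fin (k + 1) → M) (N : ℝ) :
    ∃ h : List M, (∀ r ∈ h, r ∈ insert z (S : Set M)) ∧ N ≤ lcost c0 σ h ∧
      ∀ h', h' <:+ h → ∀ s0 : St M (k + 1), ∃ (s : St M (k + 1)) (x : ℝ), Off s0 h' s x ∧
        ((∀ i, s0.pos i ∈ insert z (S : Set M)) → ∀ i, s.pos i ∈ insert z (S : Set M)) ∧
        (c + 1 - ε) * x ≤ lcost c0 σ h' + (((k + 1 : ℕ) : ℝ) * L + K2 k D L c K +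
          (c + 1 - ε) * WW z a s0.pos) := by
  have hc1 : 0 ≤ c + 1 - ε := by linarith
  have hK2 : 0 ≤ K2 k D L c K := by
    unfold K2
    positivity
  have hkL : 0 ≤ ((k + 1 : ℕ) : ℝ) * L := by positivity
  obtain ⟨j, hj⟩ := exists_nat_ge (N / L)
  obtain ⟨h, h1, h2, h3⟩ := phases hk hcard hz hD hL hmin hL0 hD0 hc hε0 hε1 hK0 hLarge H hσ c0 N j
  refine ⟨h ++ [z], ?_, ?_, ?_⟩
  · intro r hr
    rcases List.mem_append.1 hr with h4 | h4
    · exact h1 r h4
    · rw [List.mem_singleton] at h4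
      rw [h4]; exact Set.mem_insert _ _
  · rcases h3 with h3 | ⟨-, -, h3⟩
    · exact h3
    · refine le_trans ?_ h3
      rwa [div_le_iff₀ hL0] at hj
  · intro h'' hh'' s0
    have hW := WW_nonneg z a s0.pos
    rcases suffix_append hh'' with h4 | ⟨h', h4, rfl⟩
    · rcases List.suffix_cons_iff.1 h4 with h5 | h5
      · subst h5
        obtain ⟨g, hg⟩ := exists_ne_fr (by omega : 2 ≤ k + 1) s0.fr
        refine ⟨_, _, Off.cons Off.nil (step_move s0 g hg z), ?_, ?_⟩
        · intro h6 i
          show Function.update s0.pos g z i ∈ _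
          by_cases hi : i = g
          · subst hi; rw [Function.update_self]; exact Set.mem_insert _ _
          · rw [Function.update_of_ne hi]; exact h6 i
        · have h6 : dist (s0.pos g) z ≤ WW z a s0.pos := by
            unfold WW
            have h7 := Finset.single_le_sum (f := fun i => dist (s0.pos i) z)
              (fun i _ => dist_nonneg) (Finset.mem_univ g)
            have h8 : 0 ≤ ∑ i, dist (s0.pos i) a := Finset.sum_nonneg fun _ _ => dist_nonneg
            linarith
          have h9 := mul_le_mul_of_nonneg_left h6 hc1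
          rw [zero_add]
          have := lcost_nonneg c0 σ [z]
          linarith
      · have h6 : h'' = [] := List.suffix_nil.1 h5
        subst h6
        refine ⟨s0, 0, Off.nil, fun h => h, ?_⟩
        rw [mul_zero]
        have := lcost_nonneg c0 σ []
        have h9 := mul_nonneg hc1 hW
        linarith
    · obtain ⟨g, hg⟩ := exists_ne_fr (by omega : 2 ≤ k + 1) s0.fr
      have hst := step_move s0 g hg z
      set p : St M (k + 1) := ⟨Function.update (fun _ => a) g z, some g⟩ with hp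
      have hP : PSt S z p := by
        refine ⟨g, rfl, ?_, fun i hi => ?_⟩
        · show Function.update (fun _ => a) g z g = z
          rw [Function.update_self]
        show Function.update (fun _ => a) g z i ∈ S
        rw [Function.update_of_ne hi]; exact ha
      by_cases hne : h' = []
      · subst hne
        refine ⟨_, _, Off.cons Off.nil hst, ?_, ?_⟩
        · intro h6 i
          show Function.update s0.pos g z i ∈ _
          by_cases hi : i = g
          · subst hi; rw [Function.update_self]; exact Set.mem_insert _ _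
          · rw [Function.update_of_ne hi]; exact h6 i
        · have h6 : dist (s0.pos g) z ≤ WW z a s0.pos := by
            unfold WW
            have h7 := Finset.single_le_sum (f := fun i => dist (s0.pos i) z)
              (fun i _ => dist_nonneg) (Finset.mem_univ g)
            have h8 : 0 ≤ ∑ i, dist (s0.pos i) a := Finset.sum_nonneg fun _ _ => dist_nonneg
            linarith
          have h9 := mul_le_mul_of_nonneg_left h6 hc1
          rw [zero_add]
          have := lcost_nonneg c0 σ ([] ++ [z])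
          linarith
      · obtain ⟨s, x, f1, f2, f3⟩ := h2 h' h4 p hP
        obtain ⟨x', hx', f4⟩ := Off.shift (c' := Function.update s0.pos g z) (by
          intro i hi
          have : g = i := Option.some.inj hi
          subst this
          rw [Function.update_self, Function.update_self]) f1 hne
        refine ⟨s, (0 + dist (s0.pos g) z) + x', (Off.cons Off.nil hst).trans f4, fun _ => f2, ?_⟩
        have h5 : ∑ i, dist (Function.update s0.pos g z i) (Function.update (fun _ => a) g z i) ≤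
            ∑ i, dist (s0.pos i) a := by
          apply Finset.sum_le_sum
          intro i _
          by_cases hi : i = g
          · subst hi
            rw [Function.update_self, Function.update_self, dist_self]; exact dist_nonneg
          · rw [Function.update_of_ne hi, Function.update_of_ne hi]
        have h6 : dist (s0.pos g) z ≤ ∑ i, dist (s0.pos i) z :=
          Finset.single_le_sum (f := fun i => dist (s0.pos i) z)
              (fun i _ => dist_nonneg) (Finset.mem_univ g)
        have h7 : (0 + dist (s0.pos g) z) + x' ≤ x + WW z a s0.pos := by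
          unfold WW
          linarith
        have h8 := mul_le_mul_of_nonneg_left h7 hc1
        have h9 := psi_le (z := z) hL0.le c0 σ (h' ++ [z])
        rw [mul_add] at h8
        linarith

/-- The step of the induction. -/
theorem step [DecidableEq M] (hk : 2 ≤ k) (hcard : S.card = k + 1) (hz : z ∉ S)
    (hD : ∀ s ∈ S, ∀ s' ∈ S, dist s s' ≤ D) (hL : ∀ s ∈ S, dist s z = L)
    (hmin : ∀ y, y ≠ z → L ≤ dist y z) (hL0 : 0 < L)
    (hD0 : 0 ≤ D) (hc : 1 ≤ c) (hε0 : 0 < ε) (hε1 : ε ≤ 1) (hK0 : 0 ≤ K)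
    (hLarge : K + (c + 1) * ((k + 2) * D) ≤ 2 * ε * L) (H : HK S k c K) :
    ∃ K', 0 ≤ K' ∧ HK (insert z S) (k + 1) (c + 1 - ε) K' := by
  obtain ⟨a, ha⟩ : S.Nonempty := by rw [← Finset.card_pos]; omega
  have hc1 : 0 ≤ c + 1 - ε := by linarith
  have hK2 : 0 ≤ K2 k D L c K := by
    unfold K2
    positivity
  set B : ℝ := ((k + 1 : ℕ) : ℝ) * (D + L) + ((k + 1 : ℕ) : ℝ) * (D + L) with hB
  have hB0 : 0 ≤ B := by positivity
  refine ⟨((k + 1 : ℕ) : ℝ) * L + K2 k D L c K + (c + 1 - ε) * B, by positivity, ?_⟩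
  intro σ hσ c0 N
  obtain ⟨h, h1, h2, h3⟩ := plus hk hcard hz hD hL hmin hL0 hD0 hc hε0 hε1 hK0 hLarge H ha hσ c0 N
  refine ⟨h, ?_, h2, ?_⟩
  · intro r hr
    have := h1 r hr
    rw [Finset.mem_insert]
    rcases this with h4 | h4
    · exact Or.inl h4
    · exact Or.inr h4
  · intro h' hh' c' hc'
    obtain ⟨s, x, f1, f2, f3⟩ := h3 h' hh' ⟨c', none⟩
    have hc'' : ∀ i, c' i ∈ insert z (S : Set M) := by
      intro i
      have := hc' i
      rw [Finset.mem_insert] at this
      rcases this with h4 | h4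
      · exact Or.inl h4
      · exact Or.inr h4
    refine ⟨s, x, f1, ?_, ?_⟩
    · intro i
      rw [Finset.mem_insert]
      rcases f2 hc'' i with h4 | h4
      · exact Or.inl h4
      · exact Or.inr h4
    · have hW : WW z a c' ≤ B := by
        unfold WW
        have e1 : ∑ i, dist (c' i) z ≤ ((k + 1 : ℕ) : ℝ) * (D + L) := by
          refine (Finset.sum_le_card_nsmul _ _ (D + L) ?_).trans ?_
          · intro i _
            rcases hc'' i with h4 | h4
            · rw [h4, dist_self]; linarith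
            · rw [hL _ h4]; linarith
          · rw [Finset.card_univ, Fintype.card_fin, nsmul_eq_mul]
        have e2 : ∑ i, dist (c' i) a ≤ ((k + 1 : ℕ) : ℝ) * (D + L) := by
          refine (Finset.sum_le_card_nsmul _ _ (D + L) ?_).trans ?_
          · intro i _
            rcases hc'' i with h4 | h4
            · rw [h4, dist_comm, hL _ ha]; linarith
            · have := hD _ h4 _ ha
              linarith
          · rw [Finset.card_univ, Fintype.card_fin, nsmul_eq_mul]
        rw [hB]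
        exact add_le_add e1 e2
      have := mul_le_mul_of_nonneg_left hW hc1
      have f3' : (c + 1 - ε) * x ≤ lcost c0 σ h' + (((k + 1 : ℕ) : ℝ) * L + K2 k D L c K +
          (c + 1 - ε) * WW z a c') := f3
      linarith

end main

end Pool.Agent.R566.Delayed
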