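import Mathlib

/-!
# The delayed k-server problem: the model
-/

set_option autoImplicit false

open scoped BigOperators

namespace Pool.Agent.R566.Delayed

/-- A deterministic online algorithm for the delayed `k`-server problem with initial configuration
`c₀` and initially frozen server `f₀`.  For every list `ρ` of requests (in chronological order),
`conf ρ` is the configuration after the last request of `ρ` has been served and `serve ρ` is the
server that has served this request; it is the frozen server for the next step. -/
structure Algorithm (M : Type) (k : ℕ) (c₀ : Fin k → M) (f₀ : Fin k) where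
  /-- the configuration after the requests -/
  conf : List M → Fin k → M
  /-- the server that has served the last request -/
  serve : List M → Fin k
  conf_nil : conf [] = c₀
  serve_nil : serve [] = f₀
  /-- the frozen server does not move -/
  frozen : ∀ ρ r, conf (ρ ++ [r]) (serve ρ) = conf ρ (serve ρ)
  /-- the request is served -/
  served : ∀ ρ r, conf (ρ ++ [r]) (serve (ρ ++ [r])) = r

variable {M : Type} [MetricSpace M] {k : ℕ} {c₀ : Fin k → M} {f₀ : Fin k}

/-- The cost of the algorithm: the total distance moved by all servers. -/
noncomputable def Algorithm.cost (A : Algorithm M k c₀ f₀) (ρ : List M) : ℝ :=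
  ∑ t ∈ Finset.range ρ.length, ∑ i, dist (A.conf (ρ.take t) i) (A.conf (ρ.take (t + 1)) i)

/-- `x` is the cost of an offline solution for the requests `ρ`: the configurations `c t` and
the serving servers `g t` after the first `t` requests obey the rules. -/
def OfflineCost (c₀ : Fin k → M) (f₀ : Fin k) (ρ : List M) (x : ℝ) : Prop :=
  ∃ (c : ℕ → Fin k → M) (g : ℕ → Fin k), c 0 = c₀ ∧ g 0 = f₀ ∧
    (∀ (t : ℕ) (ht : t < ρ.length), c (t + 1) (g t) = c t (g t) ∧ c (t + 1) (g (t + 1)) = ρ[t]) ∧
    x = ∑ t ∈ Finset.range ρ.length, ∑ i, dist (c t i) (c (t + 1) i)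

/-- The optimal offline cost. -/
noncomputable def opt (c₀ : Fin k → M) (f₀ : Fin k) (ρ : List M) : ℝ :=
  sInf {x | OfflineCost c₀ f₀ ρ x}

/-- The algorithm is `C`-competitive. -/
def Algorithm.Competitive (A : Algorithm M k c₀ f₀) (C : ℝ) : Prop :=
  ∃ K : ℝ, ∀ ρ : List M, A.cost ρ ≤ C * opt c₀ f₀ ρ + K

/-- The competitiveness `C_{M,k}` (with initial configuration `c₀` and initially frozen server
`f₀`): the infimum of all `C` such that some deterministic online algorithm is `C`-competitive;
it is `⊤ = +∞` if there is no such algorithm. -/
noncomputable def competitiveness (c₀ : Fin k → M) (f₀ : Fin k) : EReal :=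
  ⨅ (C : ℝ) (_ : ∃ A : Algorithm M k c₀ f₀, A.Competitive C), (C : EReal)

end Pool.Agent.R566.Delayed
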