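import Pool.Agent.R566.Delayed.Lazy

set_option autoImplicit false
set_option linter.unusedSectionVars false

open scoped BigOperators

namespace Pool.Agent.R566.Delayed

variable {M : Type} [MetricSpace M] {k : ℕ}

/-- There is a server different from a given one. -/
lemma exists_ne_fr {k : ℕ} (hk : 2 ≤ k) (f : Option (Fin k)) : ∃ g : Fin k, f ≠ some g := by
  rcases f with _ | a
  · exact ⟨⟨0, by omega⟩, by simp⟩
  · by_cases h : a.val = 0
    · refine ⟨⟨1, by omega⟩, fun h2 => ?_⟩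
      have h3 := congrArg Fin.val (Option.some.inj h2)
      simp only at h3
      omega
    · refine ⟨⟨0, by omega⟩, fun h2 => ?_⟩
      have h3 := congrArg Fin.val (Option.some.inj h2)
      simp only at h3
      omega

/-- Move one server that is not frozen. -/
lemma step_move (s : St M k) (g : Fin k) (hg : s.fr ≠ some g) (r : M) :
    Step s r ⟨Function.update s.pos g r, some g⟩ (dist (s.pos g) r) := by
  refine ⟨?_, ⟨g, rfl, ?_⟩, ?_⟩
  · intro f hf
    have : f ≠ g := fun h => hg (by rw [hf, h])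
    exact Function.update_of_ne this _ _
  · exact Function.update_self _ _ _
  · rw [← Finset.add_sum_erase _ _ (Finset.mem_univ g)]
    show _ = dist (s.pos g) (Function.update s.pos g r g) + _
    rw [Function.update_self, Finset.sum_eq_zero, add_zero]
    intro i hi
    rw [Finset.mem_erase] at hi
    show dist (s.pos i) (Function.update s.pos g r i) = 0
    rw [Function.update_of_ne hi.1, dist_self]

/-- Serve a request at a point where there is a server, without moving. -/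
lemma step_stay (s : St M k) (g : Fin k) {r : M} (hg : s.pos g = r) :
    Step s r ⟨s.pos, some g⟩ 0 := by
  refine ⟨fun f _ => rfl, ⟨g, rfl, hg⟩, ?_⟩
  simp

section bounded

variable {S : Finset M} {z : M} {D L : ℝ}

/-- Serving one more request in `S` costs at most `D`. -/
lemma serve_one (hk : 2 ≤ k) (hD : ∀ s ∈ S, ∀ s' ∈ S, dist s s' ≤ D) (s : St M k)
    (hs : ∀ i, s.pos i ∈ S) {r : M} (hr : r ∈ S) :
    ∃ (s' : St M k) (y : ℝ), Step s r s' y ∧ y ≤ D ∧ ∀ i, s'.pos i ∈ S := by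
  obtain ⟨g, hg⟩ := exists_ne_fr hk s.fr
  refine ⟨_, _, step_move s g hg r, hD _ (hs g) _ hr, ?_⟩
  intro i
  by_cases h : i = g
  · subst h
    show Function.update s.pos i r i ∈ S
    rw [Function.update_self]; exact hr
  · show Function.update s.pos g r i ∈ S
    rw [Function.update_of_ne h]; exact hs i

/-- A state in which one server is at `z` and all the others are in `S`. -/
def TypeA (S : Finset M) (z : M) (s : St M (k + 1)) : Prop :=
  ∃ j, s.pos j = z ∧ ∀ i, i ≠ j → s.pos i ∈ S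

lemma TypeA.step (s : St M (k + 1)) (h : TypeA S z s) :
    ∃ s', Step s z s' 0 ∧ PSt S z s' := by
  obtain ⟨j, h1, h2⟩ := h
  exact ⟨_, step_stay s j h1, j, rfl, h1, h2⟩

/-- A state in which all points of `S` are covered (and all servers are in `S`). -/
def Cover (S : Finset M) (s : St M (k + 1)) : Prop :=
  (∀ i, s.pos i ∈ S) ∧ ∀ x ∈ S, ∃ i, s.pos i = x

lemma Cover.step {s : St M (k + 1)} (h : Cover S s) {r : M} (hr : r ∈ S) :
    ∃ s', Step s r s' 0 ∧ Cover S s' := by
  obtain ⟨i, hi⟩ := h.2 r hr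
  exact ⟨_, step_stay s i hi, h.1, h.2⟩

lemma Cover.stepz (hk : 1 ≤ k) (hL : ∀ s ∈ S, dist s z = L) {s : St M (k + 1)} (h : Cover S s) :
    ∃ s', Step s z s' L ∧ PSt S z s' := by
  obtain ⟨g, hg⟩ := exists_ne_fr (by omega : 2 ≤ k + 1) s.fr
  refine ⟨_, (hL _ (h.1 g)) ▸ step_move s g hg z, g, rfl, ?_, ?_⟩
  · show Function.update s.pos g z g = z
    rw [Function.update_self]
  · intro i hi
    show Function.update s.pos g z i ∈ S
    rw [Function.update_of_ne hi]; exact h.1 i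

/-- The second option: use all servers in `S`. -/
lemma optionB (hk : 2 ≤ k) (hD0 : 0 ≤ D) (_hL0 : 0 ≤ L)
    (hD : ∀ s ∈ S, ∀ s' ∈ S, dist s s' ≤ D) (hL : ∀ s ∈ S, dist s z = L)
    (hcard : S.card = k + 1) (p : St M (k + 1)) (hp : PSt S z p) :
    ∀ h : List M, (∀ r ∈ h, r ∈ S) → h ≠ [] →
      ∃ (s : St M (k + 1)) (x : ℝ), Off p h s x ∧
        ((x ≤ D ∧ TypeA S z s ∧ h.length = 1 ∧ ∃ i r, s.fr = some i ∧ s.pos i = r ∧ r ∈ S) ∨
          (x ≤ L + (k + 2) * D ∧ Cover S s)) := by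
  classical
  intro h
  induction h with
  | nil => intro _ h; exact absurd rfl h
  | cons r h ih =>
    intro hS _
    have hr : r ∈ S := hS r (by simp)
    rcases h with _ | ⟨r', h⟩
    · -- the first request
      obtain ⟨j, h1, h2, h3⟩ := hp
      obtain ⟨g, hg⟩ := exists_ne_fr (by omega : 2 ≤ k + 1) p.fr
      have hgj : g ≠ j := fun h => hg (by rw [h1, h])
      refine ⟨_, _, Off.cons Off.nil (step_move p g hg r), Or.inl ⟨?_, ?_, rfl, ?_⟩⟩
      · rw [zero_add]; exact hD _ (h3 g hgj) _ hr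
      · refine ⟨j, ?_, ?_⟩
        · show Function.update p.pos g r j = z
          rw [Function.update_of_ne hgj.symm]; exact h2
        · intro i hi
          show Function.update p.pos g r i ∈ S
          by_cases h4 : i = g
          · subst h4; rw [Function.update_self]; exact hr
          · rw [Function.update_of_ne h4]; exact h3 i hi
      · exact ⟨g, r, rfl, Function.update_self _ _ _, hr⟩
    · obtain ⟨s, x, h1, h2⟩ := ih (fun q hq => hS q (List.mem_cons_of_mem _ hq)) (by simp)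
      rcases h2 with ⟨hx, hA, hlen, i, q, hi1, hi2, hq⟩ | ⟨hx, hC⟩
      · -- move to a cover
        obtain ⟨b0⟩ : Nonempty (Fin (k + 1) ≃ {x // x ∈ S}) := by
          rw [← Fintype.card_eq]; simp [hcard]
        set b : Fin (k + 1) ≃ {x // x ∈ S} := (Equiv.swap i (b0.symm ⟨q, hq⟩)).trans b0 with hb
        have hbi : (b i : M) = q := by
          rw [hb]
          simp
        obtain ⟨g, hg⟩ : ∃ g, (b g : M) = r := ⟨b.symm ⟨r, hr⟩, by simp⟩
        obtain ⟨j, hj1, hj2⟩ := hA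
        have hcost : ∑ a, dist (s.pos a) (b a : M) ≤ L + (k + 1) * D := by
          have h5 : ∀ a, dist (s.pos a) (b a : M) ≤ D + if a = j then L else 0 := by
            intro a
            by_cases ha : a = j
            · rw [if_pos ha, ha, hj1, dist_comm, hL _ (b j).2]; linarith
            · rw [if_neg ha, add_zero]; exact hD _ (hj2 a ha) _ (b a).2
          refine (Finset.sum_le_sum fun a _ => h5 a).trans ?_
          rw [Finset.sum_add_distrib, Finset.sum_const, Finset.card_univ, Fintype.card_fin,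
            nsmul_eq_mul, Finset.sum_ite_eq']
          simp only [Finset.mem_univ, if_true]
          push_cast
          linarith
        refine ⟨⟨fun a => b a, some g⟩, x + ∑ a, dist (s.pos a) (b a : M), Off.cons h1 ?_,
          Or.inr ⟨?_, ?_⟩⟩
        · refine ⟨?_, ⟨g, rfl, hg⟩, rfl⟩
          intro f hf
          rw [hi1] at hf
          have : i = f := Option.some.inj hf
          subst this
          show (b i : M) = s.pos i
          rw [hbi, hi2]
        · linarith
        · exact ⟨fun a => (b a).2, fun y hy => ⟨b.symm ⟨y, hy⟩, by simp⟩⟩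
      · obtain ⟨s', hs', hC'⟩ := hC.step hr
        exact ⟨s', x + 0, Off.cons h1 hs', Or.inr ⟨by linarith, hC'⟩⟩

/-- The second option for an incomplete phase. -/
lemma optionB' (hk : 2 ≤ k) (hD0 : 0 ≤ D) (hL0 : 0 ≤ L)
    (hD : ∀ s ∈ S, ∀ s' ∈ S, dist s s' ≤ D) (hL : ∀ s ∈ S, dist s z = L)
    (hcard : S.card = k + 1) (p : St M (k + 1)) (hp : PSt S z p)
    (h : List M) (hS : ∀ r ∈ h, r ∈ S) :
      ∃ (s : St M (k + 1)) (x : ℝ), Off p h s x ∧ x ≤ L + (k + 2) * D ∧
        ∀ i, s.pos i ∈ insert z (S : Set M) := by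
  have hkD : 0 ≤ (k : ℝ) * D := mul_nonneg (Nat.cast_nonneg _) hD0
  by_cases hne : h = []
  · subst hne
    obtain ⟨j, h1, h2, h3⟩ := hp
    refine ⟨p, 0, Off.nil, by linarith, fun i => ?_⟩
    by_cases hi : i = j
    · rw [hi, h2]; exact Set.mem_insert _ _
    · exact Set.mem_insert_of_mem _ (h3 i hi)
  · obtain ⟨s, x, h1, h2⟩ := optionB hk hD0 hL0 hD hL hcard p hp h hS hne
    rcases h2 with ⟨hx, ⟨j, hj1, hj2⟩, -⟩ | ⟨hx, hC⟩
    · refine ⟨s, x, h1, by linarith, fun i => ?_⟩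
      by_cases hi : i = j
      · rw [hi, hj1]; exact Set.mem_insert _ _
      · exact Set.mem_insert_of_mem _ (hj2 i hi)
    · exact ⟨s, x, h1, hx, fun i => Set.mem_insert_of_mem _ (hC.1 i)⟩

/-- The second option for a complete phase. -/
lemma optionBz (hk : 2 ≤ k) (hD0 : 0 ≤ D) (hL0 : 0 ≤ L)
    (hD : ∀ s ∈ S, ∀ s' ∈ S, dist s s' ≤ D) (hL : ∀ s ∈ S, dist s z = L)
    (hcard : S.card = k + 1) (p : St M (k + 1)) (hp : PSt S z p)
    (h : List M) (hS : ∀ r ∈ h, r ∈ S) (hne : h ≠ []) :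
      ∃ (s : St M (k + 1)) (x : ℝ), Off p (z :: h) s x ∧ x ≤ 2 * L + (k + 2) * D ∧ PSt S z s := by
  have hkD : 0 ≤ (k : ℝ) * D := mul_nonneg (Nat.cast_nonneg _) hD0
  obtain ⟨s, x, h1, h2⟩ := optionB hk hD0 hL0 hD hL hcard p hp h hS hne
  rcases h2 with ⟨hx, hA, -⟩ | ⟨hx, hC⟩
  · obtain ⟨s', hs', hP⟩ := TypeA.step s hA
    exact ⟨s', x + 0, Off.cons h1 hs', by linarith, hP⟩
  · obtain ⟨s', hs', hP⟩ := hC.stepz (by omega) hL
    exact ⟨s', x + L, Off.cons h1 hs', by linarith, hP⟩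

/-- The first option. -/
lemma optionA (p : St M (k + 1)) (hp : PSt S z p) (h : List M)
    (H : ∀ c' : Fin k → M, (∀ i, c' i ∈ S) → ∃ (s : St M k) (x : ℝ), Off ⟨c', none⟩ h s x ∧
      (∀ i, s.pos i ∈ S) ∧ x ≤ L) :
    ∃ (s : St M (k + 1)) (x : ℝ), Off p h s x ∧ x ≤ L ∧ ∀ i, s.pos i ∈ insert z (S : Set M) := by
  obtain ⟨j, c, hc, rfl⟩ := hp.eq_lift
  obtain ⟨s, x, h1, h2, h3⟩ := H c hc
  refine ⟨lift j z s, x, h1.lift j z, h3, ?_⟩
  intro i
  rcases Fin.eq_self_or_eq_succAbove j i with h4 | ⟨a, h4⟩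
  · rw [h4, lift_pos_self]; exact Set.mem_insert _ _
  · rw [h4, lift_pos_succAbove]; exact Set.mem_insert_of_mem _ (h2 a)

/-- The first option for a complete phase. -/
lemma optionAz (hk : 2 ≤ k) (hD : ∀ s ∈ S, ∀ s' ∈ S, dist s s' ≤ D) (p : St M (k + 1))
    (hp : PSt S z p) (h : List M) (r : M) (hr : r ∈ S)
    (H : ∀ c' : Fin k → M, (∀ i, c' i ∈ S) → ∃ (s : St M k) (x : ℝ), Off ⟨c', none⟩ h s x ∧
      (∀ i, s.pos i ∈ S) ∧ x ≤ L) :
    ∃ (s : St M (k + 1)) (x : ℝ), Off p (z :: r :: h) s x ∧ x ≤ L + D ∧ PSt S z s := by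
  obtain ⟨j, c, hc, rfl⟩ := hp.eq_lift
  obtain ⟨s, x, h1, h2, h3⟩ := H c hc
  obtain ⟨s', y, h4, h5, h6⟩ := serve_one hk hD s h2 hr
  have h7 : Off (lift j z ⟨c, none⟩) (r :: h) (lift j z s') (x + y) := (Off.cons h1 h4).lift j z
  have h8 : TypeA S z (lift j z s') := by
    refine ⟨j, lift_pos_self _ _ _, fun i hi => ?_⟩
    rcases Fin.eq_self_or_eq_succAbove j i with h9 | ⟨a, h9⟩
    · exact absurd h9 hi
    · rw [h9, lift_pos_succAbove]; exact h6 a
  obtain ⟨s'', hs'', hP⟩ := TypeA.step _ h8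
  exact ⟨s'', x + y + 0, Off.cons h7 hs'', by linarith, hP⟩

end bounded

end Pool.Agent.R566.Delayed
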