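import Pool.Agent.R566.Delayed.Offline

set_option autoImplicit false
set_option linter.unusedSectionVars false

open scoped BigOperators

namespace Pool.Agent.R566.Delayed

variable {M : Type} [MetricSpace M] {k : ℕ}

/-- Another server. -/
noncomputable def other (hk : 2 ≤ k) (a : Fin k) : Fin k := (exists_ne_fr hk (some a)).choose

lemma other_ne (hk : 2 ≤ k) (a : Fin k) : other hk a ≠ a := by
  have := (exists_ne_fr hk (some a)).choose_spec
  intro h
  apply this
  unfold other at h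
  rw [h]

/-- The history contains no service by the server that stays at `z`. -/
def Good (σ : List M → Fin (k + 1)) (g h : List M) : Prop :=
  ∀ h', h' <:+ h → h' ≠ [] → σ (h' ++ g) ≠ σ g

open Classical in
/-- The virtual algorithm for `k` servers. -/
noncomputable def virt (hk : 2 ≤ k) (σ : List M → Fin (k + 1)) (g : List M) : List M → Fin k
  | [] => ⟨0, by omega⟩
  | r :: h => if hg : Good σ g (r :: h) then
      (Fin.exists_succAbove_eq (hg (r :: h) (List.suffix_refl _) (by simp))).choose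
    else other hk (virt hk σ g h)

lemma virt_good (hk : 2 ≤ k) (σ : List M → Fin (k + 1)) (g : List M) (r : M) (h : List M)
    (hg : Good σ g (r :: h)) :
    (σ g).succAbove (virt hk σ g (r :: h)) = σ (r :: h ++ g) := by
  unfold virt
  rw [dif_pos hg]
  exact (Fin.exists_succAbove_eq (hg (r :: h) (List.suffix_refl _) (by simp))).choose_spec

lemma virt_valid (hk : 2 ≤ k) {σ : List M → Fin (k + 1)} (hσ : Valid σ) (g : List M) :
    Valid (virt hk σ g) := by
  intro r r' h heq
  by_cases hg : Good σ g (r :: r' :: h)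
  · have hg' : Good σ g (r' :: h) := fun h' h1 h2 =>
      hg h' (h1.trans (List.suffix_cons r (r' :: h))) h2
    have h1 := virt_good hk σ g r (r' :: h) hg
    have h2 := virt_good hk σ g r' h hg'
    rw [heq, h2] at h1
    exact hσ r r' (h ++ g) h1.symm
  · exfalso
    rw [virt, dif_neg hg] at heq
    exact other_ne hk _ heq

/-- No server leaves `z`. -/
def ND (z : M) (c0 : Fin (k + 1) → M) (σ : List M → Fin (k + 1)) (g h : List M) : Prop :=
  ∀ r h2, (r :: h2) <:+ h → lpos c0 σ (h2 ++ g) (σ (r :: h2 ++ g)) ≠ z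

lemma ND.of_cons {z : M} {c0 : Fin (k + 1) → M} {σ : List M → Fin (k + 1)} {g h : List M} {r : M}
    (H : ND z c0 σ g (r :: h)) : ND z c0 σ g h :=
  fun r' h2 h3 => H r' h2 (h3.trans (List.suffix_cons r h))

lemma corr (hk : 2 ≤ k) {z : M} {L : ℝ} {c0 : Fin (k + 1) → M} {σ : List M → Fin (k + 1)}
    {g : List M} (hgz : lpos c0 σ g (σ g) = z) :
    ∀ h : List M, (∀ r ∈ h, r ≠ z) → ND z c0 σ g h →
      lpos c0 σ (h ++ g) (σ g) = z ∧ Good σ g h ∧
      (∀ a, lpos c0 σ (h ++ g) ((σ g).succAbove a) =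
        lpos (fun a => lpos c0 σ g ((σ g).succAbove a)) (virt hk σ g) h a) ∧
      lcost c0 σ (h ++ g) = lcost c0 σ g +
        lcost (fun a => lpos c0 σ g ((σ g).succAbove a)) (virt hk σ g) h ∧
      Psi z L c0 σ (h ++ g) = Psi z L c0 σ g +
        lcost (fun a => lpos c0 σ g ((σ g).succAbove a)) (virt hk σ g) h := by
  intro h
  induction h with
  | nil =>
    intro _ _
    refine ⟨hgz, ?_, fun a => rfl, ?_, ?_⟩
    · intro h' h1 h2
      exact absurd (List.suffix_nil.1 h1) h2
    · show _ = _ + 0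
      rw [add_zero]; rfl
    · show _ = _ + 0
      rw [add_zero]; rfl
  | cons r h ih =>
    intro hS hND
    obtain ⟨h1, h2, h3, h4, h5⟩ := ih (fun q hq => hS q (List.mem_cons_of_mem _ hq)) hND.of_cons
    have hr : r ≠ z := hS r (by simp)
    have h6 := hND r h (List.suffix_refl _)
    have h7 : σ (r :: h ++ g) ≠ σ g := fun h8 => h6 (by rw [h8, h1])
    have hG : Good σ g (r :: h) := by
      intro h' h8 h9
      rcases List.suffix_cons_iff.1 h8 with h10 | h10
      · rw [h10]; exact h7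
      · exact h2 h' h10 h9
    have hv := virt_good hk σ g r h hG
    have hcost : dist (lpos c0 σ (h ++ g) (σ (r :: h ++ g))) r =
        dist (lpos (fun a => lpos c0 σ g ((σ g).succAbove a)) (virt hk σ g) h
          (virt hk σ g (r :: h))) r := by
      rw [← h3, hv]
    refine ⟨?_, hG, ?_, ?_, ?_⟩
    · show Function.update (lpos c0 σ (h ++ g)) (σ (r :: (h ++ g))) r (σ g) = z
      have h7' : σ (r :: (h ++ g)) ≠ σ g := h7
      rw [Function.update_of_ne (Ne.symm h7')]
      exact h1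
    · intro a
      show Function.update (lpos c0 σ (h ++ g)) (σ (r :: (h ++ g))) r ((σ g).succAbove a) =
        Function.update (lpos (fun a => lpos c0 σ g ((σ g).succAbove a)) (virt hk σ g) h)
          (virt hk σ g (r :: h)) r a
      by_cases ha : a = virt hk σ g (r :: h)
      · rw [ha, Function.update_self]
        have h8 : (σ g).succAbove (virt hk σ g (r :: h)) = σ (r :: (h ++ g)) := hv
        rw [h8, Function.update_self]
      · rw [Function.update_of_ne ha]
        have h8 : (σ g).succAbove a ≠ σ (r :: (h ++ g)) := by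
          intro h9
          apply ha
          have h10 : (σ g).succAbove a = (σ g).succAbove (virt hk σ g (r :: h)) := h9.trans hv.symm
          exact Fin.succAbove_right_injective h10
        rw [Function.update_of_ne h8]
        exact h3 a
    · show lcost c0 σ (h ++ g) + dist (lpos c0 σ (h ++ g) (σ (r :: (h ++ g)))) r =
        lcost c0 σ g + (lcost (fun a => lpos c0 σ g ((σ g).succAbove a)) (virt hk σ g) h +
          dist (lpos (fun a => lpos c0 σ g ((σ g).succAbove a)) (virt hk σ g) h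
          (virt hk σ g (r :: h))) r)
      have hcost' : dist (lpos c0 σ (h ++ g) (σ (r :: (h ++ g)))) r = _ := hcost
      rw [hcost', h4, add_assoc]
    · have h8 := psi_stay (L := L) c0 σ (h ++ g) hr h6
      show Psi z L c0 σ (r :: (h ++ g)) = Psi z L c0 σ g +
        (lcost (fun a => lpos c0 σ g ((σ g).succAbove a)) (virt hk σ g) h +
          dist (lpos (fun a => lpos c0 σ g ((σ g).succAbove a)) (virt hk σ g) h
          (virt hk σ g (r :: h))) r)
      rw [h8, h5]
      have hcost' : dist (lpos c0 σ (h ++ g) (σ (r :: (h ++ g)))) r = _ := hcost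
      rw [hcost', add_assoc]

lemma ND_or (z : M) (c0 : Fin (k + 1) → M) (σ : List M → Fin (k + 1)) (g h : List M) :
    ND z c0 σ g h ∨ ∃ r h2, (r :: h2) <:+ h ∧ ND z c0 σ g h2 ∧
      lpos c0 σ (h2 ++ g) (σ (r :: h2 ++ g)) = z := by
  induction h with
  | nil =>
    left
    intro r h2 h3
    exact absurd (List.suffix_nil.1 h3) (by simp)
  | cons r h ih =>
    rcases ih with ih | ⟨r', h2, h3, h4, h5⟩
    · by_cases hd : lpos c0 σ (h ++ g) (σ (r :: h ++ g)) = z
      · exact Or.inr ⟨r, h, List.suffix_refl _, ih, hd⟩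
      · left
        intro r' h2 h3
        rcases List.suffix_cons_iff.1 h3 with h4 | h4
        · obtain ⟨rfl, rfl⟩ := List.cons.inj h4
          exact hd
        · exact ih r' h2 h4
    · exact Or.inr ⟨r', h2, h3.trans (List.suffix_cons r h), h4, h5⟩

/-- The hypothesis of the induction with its constant. -/
def HK (S : Finset M) (k : ℕ) (c K : ℝ) : Prop :=
  ∀ σ : List M → Fin k, Valid σ → ∀ (c0 : Fin k → M) (N : ℝ),
    ∃ h : List M, (∀ r ∈ h, r ∈ S) ∧ N ≤ lcost c0 σ h ∧
      ∀ h', h' <:+ h → ∀ c' : Fin k → M, (∀ i, c' i ∈ S) →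
        ∃ (s : St M k) (x : ℝ), Off ⟨c', none⟩ h' s x ∧ (∀ i, s.pos i ∈ S) ∧
          c * x ≤ lcost c0 σ h' + K

/-- One phase. -/
lemma phase (hk : 2 ≤ k) {S : Finset M} {z : M} (hz : z ∉ S) {c K L : ℝ} (H : HK S k c K)
    {σ : List M → Fin (k + 1)} (hσ : Valid σ) (c0 : Fin (k + 1) → M) {g : List M}
    (hgz : lpos c0 σ g (σ g) = z) (N : ℝ) :
    ∃ h : List M, (∀ r ∈ h, r ∈ S) ∧
      (∀ h', h' <:+ h → ∀ c' : Fin k → M, (∀ i, c' i ∈ S) →
        ∃ (s : St M k) (x : ℝ), Off ⟨c', none⟩ h' s x ∧ (∀ i, s.pos i ∈ S) ∧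
          c * x ≤ (Psi z L c0 σ (h' ++ g) - Psi z L c0 σ g) + K) ∧
      (N ≤ lcost c0 σ (h ++ g) ∨
        ∃ r ∈ S, lpos c0 σ (h ++ g) (σ (r :: (h ++ g))) = z) := by
  obtain ⟨hf, h1, h2, h3⟩ := H (virt hk σ g) (virt_valid hk hσ g)
    (fun a => lpos c0 σ g ((σ g).succAbove a)) N
  have key : ∀ h, h <:+ hf → ND z c0 σ g h → (∀ h', h' <:+ h → ∀ c' : Fin k → M, (∀ i, c' i ∈ S) →
        ∃ (s : St M k) (x : ℝ), Off ⟨c', none⟩ h' s x ∧ (∀ i, s.pos i ∈ S) ∧
          c * x ≤ (Psi z L c0 σ (h' ++ g) - Psi z L c0 σ g) + K) := by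
    intro h hh hN h' hh' c' hc'
    obtain ⟨s, x, e1, e2, e3⟩ := h3 h' (hh'.trans hh) c' hc'
    refine ⟨s, x, e1, e2, ?_⟩
    have hN' : ND z c0 σ g h' := fun r h2 h4 => hN r h2 (h4.trans hh')
    have hz' : ∀ r ∈ h', r ≠ z := by
      intro r hr hrz
      apply hz
      rw [← hrz]
      exact h1 r ((hh'.trans hh).subset hr)
    obtain ⟨-, -, -, -, e4⟩ := corr (L := L) hk hgz h' hz' hN'
    rw [e4]
    linarith
  rcases ND_or z c0 σ g hf with hN | ⟨r, h4, h5, h6, h7⟩
  · refine ⟨hf, h1, key hf (List.suffix_refl _) hN, Or.inl ?_⟩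
    have hz' : ∀ r ∈ hf, r ≠ z := fun r hr hrz => hz (hrz ▸ h1 r hr)
    obtain ⟨-, -, -, e4, -⟩ := corr (L := L) hk hgz hf hz' hN
    rw [e4]
    have := lcost_nonneg c0 σ g
    linarith
  · have h8 : h4 <:+ hf := (List.suffix_cons r h4).trans h5
    refine ⟨h4, fun q hq => h1 q (h8.subset hq), key h4 h8 h6, Or.inr ⟨r, h1 r (h5.subset (by simp)), ?_⟩⟩
    exact h7

end Pool.Agent.R566.Delayed
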