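import Pool.Agent.R566.Delayed.Main

set_option autoImplicit false
set_option linter.unusedSectionVars false

open scoped BigOperators

namespace Pool.Agent.R566.Delayed

/-! ### The metric space -/

/-- The distances on the cycle `0 - 1 - 2 - 3 - 0`. -/
def cyc (a b : Fin 4) : ℕ :=
  if a = b then 0 else if a.val + 2 = b.val ∨ b.val + 2 = a.val then 2 else 1

/-- The points of the space: a cycle of length four and points `0, 1, 2, …` that are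
farther and farther away. -/
def U : Type := Fin 4 ⊕ ℕ

/-- The distances in the space `U`. -/
def nd : U → U → ℕ
  | Sum.inl a, Sum.inl b => cyc a b
  | Sum.inl _, Sum.inr n => n + 2
  | Sum.inr n, Sum.inl _ => n + 2
  | Sum.inr n, Sum.inr m => if n = m then 0 else max n m + 2

lemma cyc_self : ∀ a, cyc a a = 0 := by decide

lemma cyc_comm : ∀ a b, cyc a b = cyc b a := by decide

lemma cyc_tri : ∀ a b c, cyc a c ≤ cyc a b + cyc b c := by decide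

lemma cyc_le : ∀ a b, cyc a b ≤ 2 := by decide

lemma cyc_eq : ∀ a b, cyc a b = 0 → a = b := by decide

lemma nd_self (x : U) : nd x x = 0 := by
  rcases x with a | n
  · exact cyc_self a
  · simp [nd]

lemma nd_comm (x y : U) : nd x y = nd y x := by
  rcases x with a | n <;> rcases y with b | m
  · exact cyc_comm a b
  · rfl
  · rfl
  · simp only [nd]
    by_cases h : n = m
    · rw [if_pos h, if_pos h.symm]
    · rw [if_neg h, if_neg (Ne.symm h), max_comm]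

lemma nd_tri (x y z : U) : nd x z ≤ nd x y + nd y z := by
  rcases x with a | n <;> rcases y with b | m <;> rcases z with c | l
  · exact cyc_tri a b c
  · simp only [nd]; omega
  · simp only [nd]
    have := cyc_le a c
    omega
  · simp only [nd]
    by_cases h : m = l
    · rw [if_pos h]; omega
    · rw [if_neg h]; omega
  · simp only [nd]; omega
  · simp only [nd]
    by_cases h : n = l
    · rw [if_pos h]; omega
    · rw [if_neg h]; omega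
  · simp only [nd]
    by_cases h : n = m
    · rw [if_pos h]; omega
    · rw [if_neg h]; omega
  · simp only [nd]
    by_cases h1 : n = l
    · rw [if_pos h1]; omega
    · by_cases h2 : n = m
      · by_cases h3 : m = l
        · omega
        · rw [if_neg h1, if_pos h2, if_neg h3]; omega
      · by_cases h3 : m = l
        · rw [if_neg h1, if_neg h2, if_pos h3]; omega
        · rw [if_neg h1, if_neg h2, if_neg h3]; omega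

lemma nd_eq (x y : U) (h : nd x y = 0) : x = y := by
  rcases x with a | n <;> rcases y with b | m
  · rw [cyc_eq a b h]
  · simp [nd] at h
  · simp [nd] at h
  · simp only [nd] at h
    by_cases h2 : n = m
    · rw [h2]
    · rw [if_neg h2] at h; omega

noncomputable instance : MetricSpace U where
  dist x y := (nd x y : ℝ)
  dist_self x := by
    show ((nd x x : ℕ) : ℝ) = 0
    rw [nd_self]; simp
  dist_comm x y := by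
    show ((nd x y : ℕ) : ℝ) = ((nd y x : ℕ) : ℝ)
    rw [nd_comm]
  dist_triangle x y z := by
    show ((nd x z : ℕ) : ℝ) ≤ ((nd x y : ℕ) : ℝ) + ((nd y z : ℕ) : ℝ)
    exact_mod_cast nd_tri x y z
  eq_of_dist_eq_zero := by
    intro x y h
    apply nd_eq
    have : ((nd x y : ℕ) : ℝ) = 0 := h
    exact_mod_cast this

lemma dist_U (x y : U) : dist x y = (nd x y : ℝ) := rfl

instance : DecidableEq U := inferInstanceAs (DecidableEq (Fin 4 ⊕ ℕ))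

/-- The points of the cycle. -/
def pt (a : Fin 4) : U := Sum.inl a

/-- The far points. -/
def far (n : ℕ) : U := Sum.inr n

lemma pt_inj : Function.Injective pt := Sum.inl_injective

lemma dist_pt (a b : Fin 4) : dist (pt a) (pt b) = (cyc a b : ℝ) := rfl

/-- The four points of the cycle. -/
def S4 : Finset U := Finset.univ.image pt

lemma pt_mem (a : Fin 4) : pt a ∈ S4 := Finset.mem_image_of_mem _ (Finset.mem_univ a)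

lemma mem_S4 {x : U} : x ∈ S4 ↔ ∃ a, x = pt a := by
  unfold S4
  rw [Finset.mem_image]
  constructor
  · rintro ⟨a, -, h⟩; exact ⟨a, h.symm⟩
  · rintro ⟨a, h⟩; exact ⟨a, Finset.mem_univ _, h.symm⟩

/-! ### The finite game -/

/-- The two points that are different from `r` and `r'`. -/
def hole0 (r r' : Fin 4) : Fin 4 :=
  if 0 ≠ r ∧ 0 ≠ r' then 0 else if 1 ≠ r ∧ 1 ≠ r' then 1 else 2

/-- The two points that are different from `r` and `r'`. -/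
def hole1 (r r' : Fin 4) : Fin 4 :=
  if 3 ≠ r ∧ 3 ≠ r' then 3 else if 2 ≠ r ∧ 2 ≠ r' then 2 else 1

/-- The distance from the third server of the algorithm (`4` stands for far away). -/
def pd (p : Fin 5) (q : Fin 4) : ℕ := if h : p.val < 4 then cyc ⟨p.val, h⟩ q else 2

/-- The new value of the work function at the hole `y`. -/
def wn (r r' : Fin 4) (δ : Fin 5) (y : Fin 4) : ℕ :=
  min ((δ.val - 2) + cyc (hole0 r r') y) ((2 - δ.val) + cyc (hole1 r r') y)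

/-- The increase of the minimum of the work function. -/
def dl (r r' : Fin 4) (δ : Fin 5) (q : Fin 4) : ℕ :=
  min (wn r r' δ (hole0 r' q)) (wn r r' δ (hole1 r' q))

/-- The new difference (plus two) of the work function. -/
def dn (r r' : Fin 4) (δ : Fin 5) (q : Fin 4) : Fin 5 :=
  Fin.ofNat 5 (2 + wn r r' δ (hole0 r' q) - wn r r' δ (hole1 r' q))

/-- Admissible states. -/
def good (r r' : Fin 4) (δ : Fin 5) : Prop :=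
  r ≠ r' ∧ δ.val ≤ 2 + cyc (hole0 r r') (hole1 r r') ∧ 2 ≤ δ.val + cyc (hole0 r r') (hole1 r r')

instance (r r' : Fin 4) (δ : Fin 5) : Decidable (good r r' δ) := by unfold good; infer_instance

/-- The table of the potential. -/
def Etab : List ℕ := [
  0, 0, 0, 0, 0, 0, 0, 0, 0, 0, 0, 0, 0, 0, 0, 0, 0, 0, 0, 0, 0, 0, 0, 0, 0, 0, 0, 0, 0, 0, 0, 0, 0, 0, 0, 0, 0, 0, 0, 0, 0, 0, 0, 0, 0, 0, 0, 0, 0, 0,
  0, 0, 1, 1, 0, 0, 0, 0, 0, 0, 0, 0, 0, 0, 0, 0, 1, 1, 0, 0, 0, 0, 1, 1, 1, 1, 2, 2, 0, 0, 0, 0, 2, 4, 1, 1, 1, 1, 0, 0, 0, 0, 0, 0, 0, 0, 0, 0, 0, 0,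
  1, 1, 1, 1, 1, 1, 1, 1, 1, 1, 0, 0, 0, 0, 0, 0, 2, 3, 2, 4, 1, 1, 1, 1, 1, 1, 1, 1, 1, 1, 2, 4, 2, 3, 0, 0, 0, 0, 0, 0, 0, 0, 0, 0, 0, 0, 0, 0, 0, 0,
  0, 0, 0, 0, 0, 0, 1, 1, 0, 0, 0, 0, 1, 1, 1, 1, 2, 4, 0, 0, 0, 0, 2, 2, 1, 1, 1, 1, 0, 0, 0, 0, 1, 1, 0, 0, 0, 0, 0, 0, 0, 0, 0, 0, 0, 0, 0, 0, 0, 0,
  0, 0, 1, 1, 0, 0, 0, 0, 0, 0, 0, 0, 0, 0, 0, 0, 1, 1, 0, 0, 0, 0, 1, 1, 1, 1, 2, 4, 0, 0, 0, 0, 2, 2, 1, 1, 1, 1, 0, 0, 0, 0, 0, 0, 0, 0, 0, 0, 0, 0,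
  0, 0, 0, 0, 0, 0, 0, 0, 0, 0, 0, 0, 0, 0, 0, 0, 0, 0, 0, 0, 0, 0, 0, 0, 0, 0, 0, 0, 0, 0, 0, 0, 0, 0, 0, 0, 0, 0, 0, 0, 0, 0, 0, 0, 0, 0, 0, 0, 0, 0,
  0, 0, 1, 1, 1, 1, 2, 4, 0, 0, 0, 0, 0, 0, 0, 0, 1, 1, 0, 0, 0, 0, 1, 1, 0, 0, 0, 0, 0, 0, 0, 0, 2, 2, 1, 1, 1, 1, 0, 0, 0, 0, 0, 0, 0, 0, 0, 0, 0, 0,
  0, 0, 0, 0, 0, 0, 2, 3, 2, 4, 1, 1, 1, 1, 1, 1, 1, 1, 1, 1, 2, 4, 2, 3, 0, 0, 0, 0, 0, 0, 1, 1, 1, 1, 1, 1, 1, 1, 1, 1, 0, 0, 0, 0, 0, 0, 0, 0, 0, 0,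
  1, 1, 1, 1, 1, 1, 1, 1, 1, 1, 0, 0, 0, 0, 0, 0, 2, 3, 2, 4, 1, 1, 1, 1, 1, 1, 1, 1, 1, 1, 2, 4, 2, 3, 0, 0, 0, 0, 0, 0, 0, 0, 0, 0, 0, 0, 0, 0, 0, 0,
  0, 0, 1, 1, 1, 1, 2, 2, 0, 0, 0, 0, 0, 0, 0, 0, 1, 1, 0, 0, 0, 0, 1, 1, 0, 0, 0, 0, 0, 0, 0, 0, 2, 4, 1, 1, 1, 1, 0, 0, 0, 0, 0, 0, 0, 0, 0, 0, 0, 0,
  0, 0, 0, 0, 0, 0, 0, 0, 0, 0, 0, 0, 0, 0, 0, 0, 0, 0, 0, 0, 0, 0, 0, 0, 0, 0, 0, 0, 0, 0, 0, 0, 0, 0, 0, 0, 0, 0, 0, 0, 0, 0, 0, 0, 0, 0, 0, 0, 0, 0,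
  0, 0, 1, 1, 1, 1, 2, 2, 0, 0, 0, 0, 2, 4, 1, 1, 1, 1, 0, 0, 0, 0, 1, 1, 0, 0, 0, 0, 0, 0, 0, 0, 0, 0, 0, 0, 1, 1, 0, 0, 0, 0, 0, 0, 0, 0, 0, 0, 0, 0,
  0, 0, 0, 0, 0, 0, 1, 1, 0, 0, 0, 0, 1, 1, 1, 1, 2, 2, 0, 0, 0, 0, 2, 4, 1, 1, 1, 1, 0, 0, 0, 0, 1, 1, 0, 0, 0, 0, 0, 0, 0, 0, 0, 0, 0, 0, 0, 0, 0, 0,
  0, 0, 0, 0, 0, 0, 2, 3, 2, 4, 1, 1, 1, 1, 1, 1, 1, 1, 1, 1, 2, 4, 2, 3, 0, 0, 0, 0, 0, 0, 1, 1, 1, 1, 1, 1, 1, 1, 1, 1, 0, 0, 0, 0, 0, 0, 0, 0, 0, 0,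
  0, 0, 1, 1, 1, 1, 2, 4, 0, 0, 0, 0, 2, 2, 1, 1, 1, 1, 0, 0, 0, 0, 1, 1, 0, 0, 0, 0, 0, 0, 0, 0, 0, 0, 0, 0, 1, 1, 0, 0, 0, 0, 0, 0, 0, 0, 0, 0, 0, 0,
  0, 0, 0, 0, 0, 0, 0, 0, 0, 0, 0, 0, 0, 0, 0, 0, 0, 0, 0, 0, 0, 0, 0, 0, 0, 0, 0, 0, 0, 0, 0, 0, 0, 0, 0, 0, 0, 0, 0, 0, 0, 0, 0, 0, 0, 0, 0, 0, 0, 0]

/-- The potential. -/
def EE (r r' : Fin 4) (p : Fin 5) (δ : Fin 5) (t : ℕ) : ℕ :=
  Etab.getD ((((r.val * 4 + r'.val) * 5 + p.val) * 5 + δ.val) * 2 + t) 0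

lemma EE_le : ∀ (r r' : Fin 4) (p : Fin 5) (δ : Fin 5) (t : Fin 2), EE r r' p δ t.val ≤ 4 := by
  decide +kernel

lemma w_ok : ∀ (r r' : Fin 4) (δ : Fin 5) (q : Fin 4), good r r' δ → q ≠ r' →
    good r' q (dn r r' δ q) ∧
    dl r r' δ q + ((dn r r' δ q).val - 2) = wn r r' δ (hole0 r' q) ∧
    dl r r' δ q + (2 - (dn r r' δ q).val) = wn r r' δ (hole1 r' q) := by
  decide +kernel

lemma hole_ok : ∀ (r r' : Fin 4), r ≠ r' → hole0 r r' ≠ r ∧ hole0 r r' ≠ r' ∧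
    hole1 r r' ≠ r ∧ hole1 r r' ≠ r' := by
  decide

/-- The adversary's strategy. -/
lemma table_ok : ∀ (r r' : Fin 4) (p : Fin 5) (δ : Fin 5) (t : Fin 2), good r r' δ →
    ∃ q : Fin 4, q ≠ r' ∧
      ((cyc r q = 0 → t.val = 0) ∧
        EE r' q p (dn r r' δ q) (if cyc r q = 0 then t.val + 1 else 0) + 3 * dl r r' δ q ≤
          EE r r' p δ t.val + cyc r q) ∧
      ((pd p q = 0 → t.val = 0) ∧
        EE r' q r.castSucc (dn r r' δ q) (if pd p q = 0 then t.val + 1 else 0) +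
          3 * dl r r' δ q ≤ EE r r' p δ t.val + pd p q) := by
  decide +kernel

end Pool.Agent.R566.Delayed
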